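import Pool.Agent.Helper41.CanardDefs

set_option autoImplicit false

/-!
# Basic facts on the space of slow-fast systems
-/

namespace Pool.Agent.Helper41.Canard

open Set Filter Topology
open scoped ContDiff

lemma continuous_derivMap (k : ℕ) :
    Continuous (fun F : SlowFast => (derivMap k F.f F.smooth_f, derivMap k F.g F.smooth_g)) := by
  refine continuous_iff_le_induced.2 ?_
  exact iInf_le _ k

lemma continuous_derivMap_f (k : ℕ) :
    Continuous (fun F : SlowFast => derivMap k F.f F.smooth_f) :=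
  continuous_fst.comp (continuous_derivMap k)

lemma continuous_derivMap_g (k : ℕ) :
    Continuous (fun F : SlowFast => derivMap k F.g F.smooth_g) :=
  continuous_snd.comp (continuous_derivMap k)

lemma continuous_to_slowFast {Z : Type*} [TopologicalSpace Z] {Φ : Z → SlowFast}
    (hf : ∀ k, Continuous (fun z => derivMap k (Φ z).f (Φ z).smooth_f))
    (hg : ∀ k, Continuous (fun z => derivMap k (Φ z).g (Φ z).smooth_g)) : Continuous Φ := by
  refine continuous_iInf_rng.2 (fun k => ?_)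
  exact continuous_induced_rng.2 ((hf k).prodMk (hg k))

/-- joint continuity of a component of a derivative -/
lemma continuous_iter_f (k : ℕ) (m : Fin k → ℝ × ℝ × ℝ) :
    Continuous (fun q : SlowFast × (ℝ × ℝ × ℝ) => iteratedFDeriv ℝ k q.1.f q.2 m) := by
  have h1 : Continuous (fun q : SlowFast × (ℝ × ℝ × ℝ) =>
      (derivMap k q.1.f q.1.smooth_f) q.2) :=
    ((continuous_derivMap_f k).comp continuous_fst).eval continuous_snd
  exact (ContinuousMultilinearMap.apply ℝ (fun _ : Fin k => ℝ × ℝ × ℝ) ℝ m).continuous.comp h1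

lemma continuous_iter_g (k : ℕ) (m : Fin k → ℝ × ℝ × ℝ) :
    Continuous (fun q : SlowFast × (ℝ × ℝ × ℝ) => iteratedFDeriv ℝ k q.1.g q.2 m) := by
  have h1 : Continuous (fun q : SlowFast × (ℝ × ℝ × ℝ) =>
      (derivMap k q.1.g q.1.smooth_g) q.2) :=
    ((continuous_derivMap_g k).comp continuous_fst).eval continuous_snd
  exact (ContinuousMultilinearMap.apply ℝ (fun _ : Fin k => ℝ × ℝ × ℝ) ℝ m).continuous.comp h1

lemma continuous_f : Continuous (fun q : SlowFast × (ℝ × ℝ × ℝ) => q.1.f q.2) :=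
  continuous_iter_f 0 (fun _ => 0)

lemma continuous_g : Continuous (fun q : SlowFast × (ℝ × ℝ × ℝ) => q.1.g q.2) :=
  continuous_iter_g 0 (fun _ => 0)

lemma continuous_fderiv_f (v : ℝ × ℝ × ℝ) :
    Continuous (fun q : SlowFast × (ℝ × ℝ × ℝ) => fderiv ℝ q.1.f q.2 v) := by
  have := continuous_iter_f 1 (fun _ => v)
  simpa only [iteratedFDeriv_one_apply] using this

lemma continuous_fderiv2_f (v w : ℝ × ℝ × ℝ) :
    Continuous (fun q : SlowFast × (ℝ × ℝ × ℝ) => fderiv ℝ (fderiv ℝ q.1.f) q.2 v w) := by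
  have := continuous_iter_f 2 ![v, w]
  simpa only [iteratedFDeriv_two_apply, Matrix.cons_val_zero, Matrix.cons_val_one] using this

section Partial

variable (F : SlowFast)

lemma differentiable_f : Differentiable ℝ F.f := F.smooth_f.differentiable (by simp)

lemma hasDerivAt_line_x (x y : ℝ) : HasDerivAt (fun x : ℝ => ((x, y, 0) : ℝ × ℝ × ℝ)) (1, 0, 0) x := by
  have h1 := (hasDerivAt_id' x).prodMk ((hasDerivAt_const x y).prodMk (hasDerivAt_const x (0 : ℝ)))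
  exact h1

lemma hasDerivAt_line_y (x y : ℝ) : HasDerivAt (fun y : ℝ => ((x, y, 0) : ℝ × ℝ × ℝ)) (0, 1, 0) y := by
  have h1 := (hasDerivAt_const y x).prodMk ((hasDerivAt_id' y).prodMk (hasDerivAt_const y (0 : ℝ)))
  exact h1

lemma hasDerivAt_f_x' (x y : ℝ) :
    HasDerivAt (fun x => F.f (x, y, 0)) (fderiv ℝ F.f (x, y, 0) (1, 0, 0)) x :=
  ((differentiable_f F (x, y, 0)).hasFDerivAt).comp_hasDerivAt x (hasDerivAt_line_x x y)

lemma hasDerivAt_f_y' (x y : ℝ) :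
    HasDerivAt (fun y => F.f (x, y, 0)) (fderiv ℝ F.f (x, y, 0) (0, 1, 0)) y :=
  ((differentiable_f F (x, y, 0)).hasFDerivAt).comp_hasDerivAt y (hasDerivAt_line_y x y)

lemma fx_eq (p : ℝ × ℝ) : F.fx p = fderiv ℝ F.f (p.1, p.2, 0) (1, 0, 0) :=
  (hasDerivAt_f_x' F p.1 p.2).deriv

lemma fy_eq (p : ℝ × ℝ) : F.fy p = fderiv ℝ F.f (p.1, p.2, 0) (0, 1, 0) :=
  (hasDerivAt_f_y' F p.1 p.2).deriv

lemma hasDerivAt_fx (x y : ℝ) : HasDerivAt (fun x => F.f (x, y, 0)) (F.fx (x, y)) x := by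
  rw [fx_eq]
  exact hasDerivAt_f_x' F x y

lemma hasDerivAt_fy (x y : ℝ) : HasDerivAt (fun y => F.f (x, y, 0)) (F.fy (x, y)) y := by
  rw [fy_eq]
  exact hasDerivAt_f_y' F x y

lemma hasDerivAt_fx_x' (x y : ℝ) :
    HasDerivAt (fun x => F.fx (x, y)) (fderiv ℝ (fderiv ℝ F.f) (x, y, 0) (1, 0, 0) (1, 0, 0)) x := by
  have hd : ContDiff ℝ 1 (fderiv ℝ F.f) := F.smooth_f.fderiv_right (m := 1) (by norm_cast)
  have h1 : HasDerivAt (fun x : ℝ => fderiv ℝ F.f (x, y, 0))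
      (fderiv ℝ (fderiv ℝ F.f) (x, y, 0) (1, 0, 0)) x :=
    ((hd.differentiable (by simp) (x, y, 0)).hasFDerivAt).comp_hasDerivAt x (hasDerivAt_line_x x y)
  have h2 := h1.clm_apply (hasDerivAt_const x ((1, 0, 0) : ℝ × ℝ × ℝ))
  simp only [map_zero, add_zero] at h2
  have h3 : (fun x => F.fx (x, y)) = fun x => fderiv ℝ F.f (x, y, 0) (1, 0, 0) := by
    funext x
    exact fx_eq F (x, y)
  rw [h3]
  exact h2

lemma fxx_eq (p : ℝ × ℝ) :
    F.fxx p = fderiv ℝ (fderiv ℝ F.f) (p.1, p.2, 0) (1, 0, 0) (1, 0, 0) :=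
  (hasDerivAt_fx_x' F p.1 p.2).deriv

lemma hasDerivAt_fxx (x y : ℝ) : HasDerivAt (fun x => F.fx (x, y)) (F.fxx (x, y)) x := by
  rw [fxx_eq]
  exact hasDerivAt_fx_x' F x y

lemma fx_perx (x y : ℝ) : F.fx (x + 2 * Real.pi, y) = F.fx (x, y) := by
  have h1 : HasDerivAt (fun x => F.f (x, y, 0)) (F.fx (x + 2 * Real.pi, y)) (x + 2 * Real.pi) :=
    hasDerivAt_fx F _ _
  have h2 := h1.comp_add_const x (2 * Real.pi)
  have h3 : (fun x => F.f (x + 2 * Real.pi, y, 0)) = fun x => F.f (x, y, 0) := by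
    funext x
    exact F.f_perx x y 0
  rw [h3] at h2
  exact h2.unique (hasDerivAt_fx F x y)

lemma fx_pery (x y : ℝ) : F.fx (x, y + 2 * Real.pi) = F.fx (x, y) := by
  have h1 : HasDerivAt (fun x => F.f (x, y + 2 * Real.pi, 0)) (F.fx (x, y + 2 * Real.pi)) x :=
    hasDerivAt_fx F _ _
  have h3 : (fun x => F.f (x, y + 2 * Real.pi, 0)) = fun x => F.f (x, y, 0) := by
    funext x
    exact F.f_pery x y 0
  rw [h3] at h1
  exact h1.unique (hasDerivAt_fx F x y)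

end Partial

lemma continuous_fx : Continuous (fun q : SlowFast × (ℝ × ℝ) => q.1.fx q.2) := by
  simp only [fx_eq]
  exact (continuous_fderiv_f (1, 0, 0)).comp
    (f := fun q : SlowFast × (ℝ × ℝ) => (q.1, (q.2.1, q.2.2, (0 : ℝ)))) (by fun_prop)

lemma continuous_fy : Continuous (fun q : SlowFast × (ℝ × ℝ) => q.1.fy q.2) := by
  simp only [fy_eq]
  exact (continuous_fderiv_f (0, 1, 0)).comp
    (f := fun q : SlowFast × (ℝ × ℝ) => (q.1, (q.2.1, q.2.2, (0 : ℝ)))) (by fun_prop)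

lemma continuous_fxx : Continuous (fun q : SlowFast × (ℝ × ℝ) => q.1.fxx q.2) := by
  simp only [fxx_eq]
  exact (continuous_fderiv2_f (1, 0, 0) (1, 0, 0)).comp
    (f := fun q : SlowFast × (ℝ × ℝ) => (q.1, (q.2.1, q.2.2, (0 : ℝ)))) (by fun_prop)

lemma continuous_f0 : Continuous (fun q : SlowFast × (ℝ × ℝ) => q.1.f (q.2.1, q.2.2, 0)) :=
  continuous_f.comp (f := fun q : SlowFast × (ℝ × ℝ) => (q.1, (q.2.1, q.2.2, (0 : ℝ))))
    (by fun_prop)

/-- A pointwise strict inequality on a compact set is an open condition. -/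
lemma isOpen_forall_pos {Z Y : Type*} [TopologicalSpace Z] [TopologicalSpace Y] {Φ : Z × Y → ℝ}
    (hΦ : Continuous Φ) {K : Set Y} (hK : IsCompact K) :
    IsOpen {z : Z | ∀ p ∈ K, 0 < Φ (z, p)} := by
  rw [isOpen_iff_mem_nhds]
  intro z hz
  refine hK.eventually_forall_of_forall_eventually (fun p hp => ?_)
  exact (hΦ.tendsto (z, p)).eventually (lt_mem_nhds (hz p hp))

/-- The perturbed system `f + (s χ₀(y) + s' χ₁(y)) g`. -/
noncomputable def perturb (F : SlowFast) (χ₀ χ₁ : ℝ → ℝ) (h₀ : ContDiff ℝ ∞ χ₀)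
    (h₁ : ContDiff ℝ ∞ χ₁) (p₀ : ∀ y, χ₀ (y + 2 * Real.pi) = χ₀ y)
    (p₁ : ∀ y, χ₁ (y + 2 * Real.pi) = χ₁ y) (q : ℝ × ℝ) : SlowFast where
  f := fun p => F.f p + (q.1 • (χ₀ p.2.1 * F.g p) + q.2 • (χ₁ p.2.1 * F.g p))
  g := F.g
  smooth_f := by
    have e1 : ContDiff ℝ ∞ (fun p : ℝ × ℝ × ℝ => χ₀ p.2.1) := h₀.comp (contDiff_fst.comp contDiff_snd)
    have e2 : ContDiff ℝ ∞ (fun p : ℝ × ℝ × ℝ => χ₁ p.2.1) := h₁.comp (contDiff_fst.comp contDiff_snd)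
    exact F.smooth_f.add (((e1.mul F.smooth_g).const_smul _).add ((e2.mul F.smooth_g).const_smul _))
  smooth_g := F.smooth_g
  f_perx := by
    intro x y ε
    simp only [F.f_perx, F.g_perx]
  f_pery := by
    intro x y ε
    simp only [F.f_pery, F.g_pery, p₀, p₁]
  g_perx := F.g_perx
  g_pery := F.g_pery
  g_pos := F.g_pos

lemma perturb_zero (F : SlowFast) (χ₀ χ₁ : ℝ → ℝ) (h₀ : ContDiff ℝ ∞ χ₀)
    (h₁ : ContDiff ℝ ∞ χ₁) (p₀ : ∀ y, χ₀ (y + 2 * Real.pi) = χ₀ y)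
    (p₁ : ∀ y, χ₁ (y + 2 * Real.pi) = χ₁ y) : perturb F χ₀ χ₁ h₀ h₁ p₀ p₁ (0, 0) = F := by
  cases F
  simp [perturb]

lemma continuous_perturb (F : SlowFast) (χ₀ χ₁ : ℝ → ℝ) (h₀ : ContDiff ℝ ∞ χ₀)
    (h₁ : ContDiff ℝ ∞ χ₁) (p₀ : ∀ y, χ₀ (y + 2 * Real.pi) = χ₀ y)
    (p₁ : ∀ y, χ₁ (y + 2 * Real.pi) = χ₁ y) :
    Continuous (perturb F χ₀ χ₁ h₀ h₁ p₀ p₁) := by
  refine continuous_to_slowFast (fun k => ?_)
    (fun k => (continuous_const : Continuous fun _ : ℝ × ℝ => derivMap k F.g F.smooth_g))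
  have e1 : ContDiff ℝ ∞ (fun p : ℝ × ℝ × ℝ => χ₀ p.2.1 * F.g p) :=
    (h₀.comp (contDiff_fst.comp contDiff_snd)).mul F.smooth_g
  have e2 : ContDiff ℝ ∞ (fun p : ℝ × ℝ × ℝ => χ₁ p.2.1 * F.g p) :=
    (h₁.comp (contDiff_fst.comp contDiff_snd)).mul F.smooth_g
  have key : ∀ q : ℝ × ℝ, derivMap k (perturb F χ₀ χ₁ h₀ h₁ p₀ p₁ q).f
      (perturb F χ₀ χ₁ h₀ h₁ p₀ p₁ q).smooth_f =
      derivMap k F.f F.smooth_f + (q.1 • derivMap k _ e1 + q.2 • derivMap k _ e2) := by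
    intro q
    ext1 p
    have hk : ((k : ℕ) : WithTop ℕ∞) ≤ ∞ := by exact_mod_cast le_top
    have a1 : ContDiff ℝ k F.f := F.smooth_f.of_le hk
    have a2 : ContDiff ℝ k (fun p : ℝ × ℝ × ℝ => χ₀ p.2.1 * F.g p) := e1.of_le hk
    have a3 : ContDiff ℝ k (fun p : ℝ × ℝ × ℝ => χ₁ p.2.1 * F.g p) := e2.of_le hk
    change iteratedFDeriv ℝ k (F.f + (q.1 • (fun p : ℝ × ℝ × ℝ => χ₀ p.2.1 * F.g p) +
      q.2 • (fun p : ℝ × ℝ × ℝ => χ₁ p.2.1 * F.g p))) p = iteratedFDeriv ℝ k F.f p +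
      (q.1 • iteratedFDeriv ℝ k (fun p : ℝ × ℝ × ℝ => χ₀ p.2.1 * F.g p) p +
       q.2 • iteratedFDeriv ℝ k (fun p : ℝ × ℝ × ℝ => χ₁ p.2.1 * F.g p) p)
    have b2 : ContDiff ℝ k (q.1 • (fun p : ℝ × ℝ × ℝ => χ₀ p.2.1 * F.g p)) := a2.const_smul q.1
    have b3 : ContDiff ℝ k (q.2 • (fun p : ℝ × ℝ × ℝ => χ₁ p.2.1 * F.g p)) := a3.const_smul q.2
    have b4 : ContDiff ℝ k (q.1 • (fun p : ℝ × ℝ × ℝ => χ₀ p.2.1 * F.g p) +
      q.2 • (fun p : ℝ × ℝ × ℝ => χ₁ p.2.1 * F.g p)) := b2.add b3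
    rw [iteratedFDeriv_add_apply a1.contDiffAt b4.contDiffAt,
      iteratedFDeriv_add_apply b2.contDiffAt b3.contDiffAt,
      iteratedFDeriv_const_smul_apply a2.contDiffAt, iteratedFDeriv_const_smul_apply a3.contDiffAt]
  simp only [key]
  fun_prop

end Pool.Agent.Helper41.Canard
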