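import Mathlib

set_option autoImplicit false

/-!
# Zero sets of families of strictly convex functions
-/

namespace Pool.Agent.Helper41.CanardCurve

open Set Filter Topology

/-- A compact subset of the plane on which the second projection is injective with preconnected
image is preconnected. -/
lemma isPreconnected_of_injOn {K : Set (ℝ × ℝ)} (hK : IsCompact K) (hinj : InjOn Prod.snd K)
    (hc : IsPreconnected (Prod.snd '' K)) : IsPreconnected K := by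
  rw [isPreconnected_closed_iff]
  intro t t' ht ht' hKt h1 h2
  have hA : IsClosed (Prod.snd '' (K ∩ t)) := ((hK.inter_right ht).image continuous_snd).isClosed
  have hB : IsClosed (Prod.snd '' (K ∩ t')) := ((hK.inter_right ht').image continuous_snd).isClosed
  obtain ⟨p, hpK, hpt⟩ := h1
  obtain ⟨q, hqK, hqt⟩ := h2
  have := isPreconnected_closed_iff.1 hc _ _ hA hB
    (by
      rintro _ ⟨z, hz, rfl⟩
      rcases hKt hz with h | h
      · exact Or.inl ⟨z, ⟨hz, h⟩, rfl⟩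
      · exact Or.inr ⟨z, ⟨hz, h⟩, rfl⟩)
    ⟨p.2, ⟨p, hpK, rfl⟩, ⟨p, ⟨hpK, hpt⟩, rfl⟩⟩
    ⟨q.2, ⟨q, hqK, rfl⟩, ⟨q, ⟨hqK, hqt⟩, rfl⟩⟩
  obtain ⟨y, -, ⟨z, ⟨hzK, hzt⟩, rfl⟩, ⟨w, ⟨hwK, hwt⟩, hwz⟩⟩ := this
  have : w = z := hinj hwK hzK hwz
  subst this
  exact ⟨w, hwK, hzt, hwt⟩

/-- The appearance of zeros in a monotone window. -/
lemma transition {h hy : ℝ × ℝ → ℝ} {r A A' : ℝ} (hr : 0 < r) (hAA : A < A')
    (hcont : Continuous h)
    (hdy : ∀ x y, HasDerivAt (fun y => h (x, y)) (hy (x, y)) y)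
    (hneg : ∀ x ∈ Icc (-r) r, ∀ y ∈ Icc A A', hy (x, y) < 0)
    (hA : ∀ x ∈ Icc (-r) r, 0 < h (x, A))
    (hbr : ∀ y ∈ Icc A A', 0 < h (r, y) ∧ 0 < h (-r, y))
    (h0 : h (0, A') < 0) :
    ∃ a ξ : ℝ, A < a ∧ a < A' ∧ ξ ∈ Ioo (-r) r ∧ h (ξ, a) = 0 ∧
      (∀ x ∈ Icc (-r) r, 0 ≤ h (x, a)) ∧
      (∀ y ∈ Ico A a, ∀ x ∈ Icc (-r) r, 0 < h (x, y)) ∧
      (∀ y ∈ Ioc a A', h (ξ, y) < 0) := by
  have hKc : IsCompact ((Icc (-r) r ×ˢ Icc A A') ∩ {p : ℝ × ℝ | h p ≤ 0}) :=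
    (isCompact_Icc.prod isCompact_Icc).inter_right (isClosed_le hcont continuous_const)
  set S : Set ℝ := Prod.snd '' ((Icc (-r) r ×ˢ Icc A A') ∩ {p : ℝ × ℝ | h p ≤ 0}) with hS
  have hSc : IsCompact S := hKc.image continuous_snd
  have hA'S : A' ∈ S := ⟨(0, A'), ⟨⟨⟨by linarith, hr.le⟩, ⟨hAA.le, le_rfl⟩⟩, h0.le⟩, rfl⟩
  obtain ⟨a, haS, haleast⟩ := hSc.exists_isLeast ⟨A', hA'S⟩
  obtain ⟨⟨ξ, a'⟩, ⟨⟨hξ, haI⟩, hle⟩, rfl⟩ := haS
  simp only at haleast hξ haI hle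
  have hle' : h (ξ, a') ≤ 0 := hle
  -- nothing before `a`
  have hbefore : ∀ y ∈ Ico A a', ∀ x ∈ Icc (-r) r, 0 < h (x, y) := by
    intro y hy' x hx
    by_contra hcon
    have : y ∈ S := ⟨(x, y), ⟨⟨hx, ⟨hy'.1, hy'.2.le.trans haI.2⟩⟩, not_lt.1 hcon⟩, rfl⟩
    exact absurd (haleast this) (not_le.2 hy'.2)
  have hAa : A < a' := by
    rcases haI.1.eq_or_lt with h1 | h1
    · exfalso
      have := hA ξ hξ
      rw [h1] at this
      linarith
    · exact h1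
  have hnonneg : ∀ x ∈ Icc (-r) r, 0 ≤ h (x, a') := by
    intro x hx
    have hc : ContinuousWithinAt (fun y => h (x, y)) (Iio a') a' :=
      (hdy x a').continuousAt.continuousWithinAt
    refine ge_of_tendsto hc.tendsto ?_
    filter_upwards [Ico_mem_nhdsLT hAa] with y hy'
    exact (hbefore y hy' x hx).le
  have hzero : h (ξ, a') = 0 := le_antisymm hle' (hnonneg ξ hξ)
  have hanti : StrictAntiOn (fun y => h (ξ, y)) (Icc A A') := by
    refine strictAntiOn_of_deriv_neg (convex_Icc A A')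
      (fun y _ => (hdy ξ y).continuousAt.continuousWithinAt) (fun y hy' => ?_)
    rw [interior_Icc] at hy'
    rw [(hdy ξ y).deriv]
    exact hneg ξ hξ y ⟨hy'.1.le, hy'.2.le⟩
  have hξ' : ξ ∈ Ioo (-r) r := by
    refine ⟨lt_of_le_of_ne hξ.1 ?_, lt_of_le_of_ne hξ.2 ?_⟩
    · rintro rfl
      have := (hbr a' haI).2
      linarith
    · rintro rfl
      have := (hbr a' haI).1
      linarith
  have ha'A' : a' < A' := by
    refine lt_of_le_of_ne haI.2 ?_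
    rintro rfl
    have := hnonneg 0 ⟨by linarith, hr.le⟩
    linarith
  refine ⟨a', ξ, hAa, ha'A', hξ', hzero, hnonneg, hbefore, fun y hy' => ?_⟩
  have := hanti haI ⟨hAa.le.trans hy'.1.le, hy'.2⟩ hy'.1
  simp only at this
  rw [hzero] at this
  exact this

/-- The hypotheses under which the zero set in a box is a simple closed curve. -/
structure Box (h hx hy hxx : ℝ × ℝ → ℝ) (r A A' B' B : ℝ) : Prop where
  r_pos : 0 < r
  AA' : A < A'
  A'B' : A' < B'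
  B'B : B' < B
  cont : Continuous h
  contx : Continuous hx
  dx : ∀ x y, HasDerivAt (fun x => h (x, y)) (hx (x, y)) x
  dy : ∀ x y, HasDerivAt (fun y => h (x, y)) (hy (x, y)) y
  dxx : ∀ x y, HasDerivAt (fun x => hx (x, y)) (hxx (x, y)) x
  conv : ∀ x ∈ Icc (-r) r, ∀ y ∈ Icc A B, 0 < hxx (x, y)
  bdry : ∀ y ∈ Icc A B, 0 < h (r, y) ∧ 0 < h (-r, y)
  neg : ∀ x ∈ Icc (-r) r, ∀ y ∈ Icc A A', hy (x, y) < 0
  pos : ∀ x ∈ Icc (-r) r, ∀ y ∈ Icc B' B, 0 < hy (x, y)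
  atA : ∀ x ∈ Icc (-r) r, 0 < h (x, A)
  atB : ∀ x ∈ Icc (-r) r, 0 < h (x, B)
  mid : ∀ y ∈ Icc A' B', h (0, y) < 0

namespace Box

variable {h hx hy hxx : ℝ × ℝ → ℝ} {r A A' B' B : ℝ}

lemma strictMono (H : Box h hx hy hxx r A A' B' B) {y : ℝ} (hy' : y ∈ Icc A B) :
    StrictMonoOn (fun x => hx (x, y)) (Icc (-r) r) := by
  refine strictMonoOn_of_deriv_pos (convex_Icc _ _)
    (fun x _ => (H.dxx x y).continuousAt.continuousWithinAt) (fun x hx' => ?_)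
  rw [interior_Icc] at hx'
  rw [(H.dxx x y).deriv]
  exact H.conv x ⟨hx'.1.le, hx'.2.le⟩ y hy'

lemma mvt (H : Box h hx hy hxx r A A' B' B) (y : ℝ) {x x' : ℝ} (hxx' : x < x') :
    ∃ z ∈ Ioo x x', hx (z, y) * (x' - x) = h (x', y) - h (x, y) := by
  obtain ⟨z, hz, hz'⟩ := exists_hasDerivAt_eq_slope (fun x => h (x, y)) (fun x => hx (x, y)) hxx'
    (fun x _ => (H.dx x y).continuousAt.continuousWithinAt) (fun x _ => H.dx x y)
  refine ⟨z, hz, ?_⟩
  rw [hz', div_mul_cancel₀]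
  exact (sub_pos.2 hxx').ne'

/-- to the right of a negative point, zeros have positive slope -/
lemma slope_right (H : Box h hx hy hxx r A A' B' B) {y x0 x : ℝ} (hy' : y ∈ Icc A B)
    (hx0 : x0 ∈ Icc (-r) r) (hxr : x ∈ Icc (-r) r) (h0 : h (x0, y) < 0) (hz : h (x, y) = 0)
    (hlt : x0 < x) : 0 < hx (x, y) := by
  obtain ⟨z, hz1, hz2⟩ := H.mvt y hlt
  have h1 : 0 < hx (z, y) := by
    by_contra hcon
    have : hx (z, y) * (x - x0) ≤ 0 :=
      mul_nonpos_of_nonpos_of_nonneg (not_lt.1 hcon) (sub_nonneg.2 hlt.le)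
    rw [hz2, hz] at this
    linarith
  have := H.strictMono hy' ⟨by linarith [hx0.1, hz1.1], by linarith [hxr.2, hz1.2]⟩ hxr hz1.2
  simp only at this
  linarith

lemma slope_left (H : Box h hx hy hxx r A A' B' B) {y x0 x : ℝ} (hy' : y ∈ Icc A B)
    (hx0 : x0 ∈ Icc (-r) r) (hxr : x ∈ Icc (-r) r) (h0 : h (x0, y) < 0) (hz : h (x, y) = 0)
    (hlt : x < x0) : hx (x, y) < 0 := by
  obtain ⟨z, hz1, hz2⟩ := H.mvt y hlt
  have h1 : hx (z, y) < 0 := by
    by_contra hcon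
    have : 0 ≤ hx (z, y) * (x0 - x) :=
      mul_nonneg (not_lt.1 hcon) (sub_nonneg.2 hlt.le)
    rw [hz2, hz] at this
    linarith
  have := H.strictMono hy' hxr ⟨by linarith [hxr.1, hz1.1], by linarith [hx0.2, hz1.2]⟩ hz1.1
  simp only at this
  linarith

lemma exists_right (H : Box h hx hy hxx r A A' B' B) {y x0 : ℝ} (hy' : y ∈ Icc A B)
    (hx0 : x0 ∈ Icc (-r) r) (h0 : h (x0, y) < 0) :
    ∃ x ∈ Ioo x0 r, h (x, y) = 0 := by
  have hc : ContinuousOn (fun x => h (x, y)) (Icc x0 r) :=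
    fun x _ => (H.dx x y).continuousAt.continuousWithinAt
  obtain ⟨x, hx1, hx2⟩ := intermediate_value_Ioo hx0.2 hc ⟨h0, (H.bdry y hy').1⟩
  exact ⟨x, hx1, hx2⟩

lemma exists_left (H : Box h hx hy hxx r A A' B' B) {y x0 : ℝ} (hy' : y ∈ Icc A B)
    (hx0 : x0 ∈ Icc (-r) r) (h0 : h (x0, y) < 0) :
    ∃ x ∈ Ioo (-r) x0, h (x, y) = 0 := by
  have hc : ContinuousOn (fun x => h (x, y)) (Icc (-r) x0) :=
    fun x _ => (H.dx x y).continuousAt.continuousWithinAt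
  obtain ⟨x, hx1, hx2⟩ := intermediate_value_Ioo' hx0.1 hc ⟨h0, (H.bdry y hy').2⟩
  exact ⟨x, hx1, hx2⟩

/-- at most one zero with nonnegative slope -/
lemma unique_nonneg (H : Box h hx hy hxx r A A' B' B) {y x x' : ℝ} (hy' : y ∈ Icc A B)
    (hxr : x ∈ Icc (-r) r) (hxr' : x' ∈ Icc (-r) r) (hz : h (x, y) = 0) (hz' : h (x', y) = 0)
    (hs : 0 ≤ hx (x, y)) (hs' : 0 ≤ hx (x', y)) : x = x' := by
  have key : ∀ x x' : ℝ, x ∈ Icc (-r) r → x' ∈ Icc (-r) r → h (x, y) = 0 → h (x', y) = 0 →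
      0 ≤ hx (x, y) → ¬ x < x' := by
    intro x x' hxr hxr' hz hz' hs hlt
    obtain ⟨z, hz1, hz2⟩ := H.mvt y hlt
    have h1 := H.strictMono hy' hxr ⟨by linarith [hxr.1, hz1.1], by linarith [hxr'.2, hz1.2]⟩ hz1.1
    simp only at h1
    rw [hz, hz'] at hz2
    have : 0 < hx (z, y) * (x' - x) := mul_pos (by linarith) (by linarith)
    linarith
  rcases lt_trichotomy x x' with h1 | h1 | h1
  · exact absurd h1 (key x x' hxr hxr' hz hz' hs)
  · exact h1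
  · exact absurd h1 (key x' x hxr' hxr hz' hz hs')

lemma unique_nonpos (H : Box h hx hy hxx r A A' B' B) {y x x' : ℝ} (hy' : y ∈ Icc A B)
    (hxr : x ∈ Icc (-r) r) (hxr' : x' ∈ Icc (-r) r) (hz : h (x, y) = 0) (hz' : h (x', y) = 0)
    (hs : hx (x, y) ≤ 0) (hs' : hx (x', y) ≤ 0) : x = x' := by
  have key : ∀ x x' : ℝ, x ∈ Icc (-r) r → x' ∈ Icc (-r) r → h (x, y) = 0 → h (x', y) = 0 →
      hx (x', y) ≤ 0 → ¬ x < x' := by
    intro x x' hxr hxr' hz hz' hs hlt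
    obtain ⟨z, hz1, hz2⟩ := H.mvt y hlt
    have h1 := H.strictMono hy' ⟨by linarith [hxr.1, hz1.1], by linarith [hxr'.2, hz1.2]⟩ hxr' hz1.2
    simp only at h1
    rw [hz, hz'] at hz2
    have : hx (z, y) * (x' - x) < 0 := mul_neg_of_neg_of_pos (by linarith) (by linarith)
    linarith
  rcases lt_trichotomy x x' with h1 | h1 | h1
  · exact absurd h1 (key x x' hxr hxr' hz hz' hs')
  · exact h1
  · exact absurd h1 (key x' x hxr' hxr hz' hz hs)

/-- The description of the zero set in the box. -/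
theorem describe (H : Box h hx hy hxx r A A' B' B) :
    ∃ a b ξ η : ℝ, A < a ∧ a < A' ∧ B' < b ∧ b < B ∧ ξ ∈ Ioo (-r) r ∧ η ∈ Ioo (-r) r ∧
      h (ξ, a) = 0 ∧ h (η, b) = 0 ∧
      (∀ x ∈ Icc (-r) r, ∀ y ∈ Icc A B, h (x, y) = 0 → y ∈ Icc a b) ∧
      (∀ y ∈ Icc a b, ∃ x ∈ Icc (-r) r, h (x, y) = 0) ∧
      (∀ x ∈ Icc (-r) r, ∀ y ∈ Icc a b, h (x, y) = 0 →
        (hx (x, y) = 0 ↔ (x, y) = (ξ, a) ∨ (x, y) = (η, b))) ∧
      IsConnected {p : ℝ × ℝ | p.1 ∈ Icc (-r) r ∧ p.2 ∈ Icc A B ∧ h p = 0} := by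
  obtain ⟨a, ξ, hAa, haA', hξ, hξ0, hanonneg, habefore, haafter⟩ :=
    transition H.r_pos H.AA' H.cont H.dy H.neg H.atA
      (fun y hy' => H.bdry y ⟨hy'.1, by linarith [hy'.2, H.A'B', H.B'B]⟩)
      (H.mid A' ⟨le_rfl, H.A'B'.le⟩)
  -- reflect in `y`
  obtain ⟨b', η, hBb, hbB', hη, hη0, hbnonneg, hbbefore, hbafter⟩ :=
    transition (h := fun p => h (p.1, -p.2)) (hy := fun p => -hy (p.1, -p.2)) (A := -B) (A' := -B')
      H.r_pos (by linarith [H.B'B]) (H.cont.comp (by fun_prop))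
      (by
        intro x y
        have h1 := (H.dy x (-y)).comp y (hasDerivAt_neg y)
        simpa [Function.comp_def] using h1)
      (by
        intro x hx' y hy'
        have := H.pos x hx' (-y) ⟨by linarith [hy'.2], by linarith [hy'.1]⟩
        simpa using this)
      (by
        intro x hx'
        simpa using H.atB x hx')
      (by
        intro y hy'
        exact H.bdry (-y) ⟨by linarith [hy'.2, H.AA', H.A'B'], by linarith [hy'.1]⟩)
      (by simpa using H.mid B' ⟨H.A'B'.le, le_rfl⟩)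
  set b : ℝ := -b' with hb
  have hb' : b' = -b := by rw [hb, neg_neg]
  simp only [hb', neg_neg] at hη0 hbnonneg
  have hbB : b < B := by linarith
  have hB'b : B' < b := by linarith
  have hab : a < b := by linarith [H.A'B']
  have hAB : A < B := by linarith
  have hr' : (0 : ℝ) ∈ Icc (-r) r := ⟨by linarith [H.r_pos], H.r_pos.le⟩
  have hξI : ξ ∈ Icc (-r) r := ⟨hξ.1.le, hξ.2.le⟩
  have hηI : η ∈ Icc (-r) r := ⟨hη.1.le, hη.2.le⟩
  -- negative points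
  have hneg : ∀ y ∈ Ioo a b, ∃ x0 ∈ Icc (-r) r, h (x0, y) < 0 := by
    intro y hy'
    by_cases h1 : y ≤ A'
    · exact ⟨ξ, hξI, haafter y ⟨hy'.1, h1⟩⟩
    · by_cases h2 : B' ≤ y
      · have := hbafter (-y) ⟨by rw [hb']; linarith [hy'.2], by linarith⟩
        simp only [neg_neg] at this
        exact ⟨η, hηI, this⟩
      · exact ⟨0, hr', H.mid y ⟨(not_le.1 h1).le, (not_le.1 h2).le⟩⟩
  have hinside : ∀ x ∈ Icc (-r) r, ∀ y ∈ Icc A B, h (x, y) = 0 → y ∈ Icc a b := by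
    intro x hx' y hy' hz
    constructor
    · by_contra hcon
      have := habefore y ⟨hy'.1, not_le.1 hcon⟩ x hx'
      linarith
    · by_contra hcon
      have := hbbefore (-y) ⟨by linarith [hy'.2], by rw [hb']; linarith [not_le.1 hcon]⟩ x hx'
      simp only [neg_neg] at this
      linarith
  have hsubI : ∀ y ∈ Icc a b, y ∈ Icc A B := fun y hy' =>
    ⟨by linarith [hy'.1], by linarith [hy'.2]⟩
  -- slope zero at the folds
  have hslope : ∀ y : ℝ, (∀ x ∈ Icc (-r) r, 0 ≤ h (x, y)) → ∀ x ∈ Ioo (-r) r, h (x, y) = 0 →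
      hx (x, y) = 0 := by
    intro y hnn x hx' hz
    have hmin : IsLocalMin (fun x => h (x, y)) x := by
      filter_upwards [Icc_mem_nhds hx'.1 hx'.2] with z hz'
      rw [hz]
      exact hnn z hz'
    exact hmin.hasDerivAt_eq_zero (H.dx x y)
  have hint : ∀ x ∈ Icc (-r) r, ∀ y ∈ Icc A B, h (x, y) = 0 → x ∈ Ioo (-r) r := by
    intro x hx' y hy' hz
    refine ⟨lt_of_le_of_ne hx'.1 ?_, lt_of_le_of_ne hx'.2 ?_⟩
    · rintro rfl
      have := (H.bdry y hy').2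
      linarith
    · rintro rfl
      have := (H.bdry y hy').1
      linarith
  have haI : a ∈ Icc A B := ⟨hAa.le, by linarith⟩
  have hbI : b ∈ Icc A B := ⟨by linarith, hbB.le⟩
  have hfold : ∀ x ∈ Icc (-r) r, ∀ y ∈ Icc a b, h (x, y) = 0 →
        (hx (x, y) = 0 ↔ (x, y) = (ξ, a) ∨ (x, y) = (η, b)) := by
    intro x hx' y hy' hz
    constructor
    · intro hs
      rcases eq_or_lt_of_le hy'.1 with h1 | h1
      · left
        subst h1
        have h2 := hslope a hanonneg ξ hξ hξ0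
        rw [H.unique_nonneg haI hx' hξI hz hξ0 hs.ge h2.ge]
      · rcases eq_or_lt_of_le hy'.2 with h3 | h3
        · right
          rw [h3] at hz hs ⊢
          have h2 := hslope b hbnonneg η hη hη0
          rw [H.unique_nonneg hbI hx' hηI hz hη0 hs.ge h2.ge]
        · exfalso
          obtain ⟨x0, hx0, hx0'⟩ := hneg y ⟨h1, h3⟩
          rcases lt_trichotomy x0 x with h4 | h4 | h4
          · have := H.slope_right (hsubI y hy') hx0 hx' hx0' hz h4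
            linarith
          · rw [h4] at hx0'
            linarith
          · have := H.slope_left (hsubI y hy') hx0 hx' hx0' hz h4
            linarith
    · rintro (h1 | h1)
      · rw [h1]
        exact hslope a hanonneg ξ hξ hξ0
      · rw [h1]
        exact hslope b hbnonneg η hη hη0
  -- existence of zeros with prescribed sign of the slope
  have hexp : ∀ y ∈ Icc a b, ∃ x ∈ Icc (-r) r, h (x, y) = 0 ∧ 0 ≤ hx (x, y) := by
    intro y hy'
    rcases eq_or_lt_of_le hy'.1 with h1 | h1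
    · exact ⟨ξ, hξI, by rw [← h1, hξ0], by rw [← h1, hslope a hanonneg ξ hξ hξ0]⟩
    · rcases eq_or_lt_of_le hy'.2 with h3 | h3
      · exact ⟨η, hηI, by rw [h3, hη0], by rw [h3, hslope b hbnonneg η hη hη0]⟩
      · obtain ⟨x0, hx0, hx0'⟩ := hneg y ⟨h1, h3⟩
        obtain ⟨x, hx1, hx2⟩ := H.exists_right (hsubI y hy') hx0 hx0'
        have hxI : x ∈ Icc (-r) r := ⟨by linarith [hx0.1, hx1.1], hx1.2.le⟩
        exact ⟨x, hxI, hx2, (H.slope_right (hsubI y hy') hx0 hxI hx0' hx2 hx1.1).le⟩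
  have hexm : ∀ y ∈ Icc a b, ∃ x ∈ Icc (-r) r, h (x, y) = 0 ∧ hx (x, y) ≤ 0 := by
    intro y hy'
    rcases eq_or_lt_of_le hy'.1 with h1 | h1
    · exact ⟨ξ, hξI, by rw [← h1, hξ0], by rw [← h1, hslope a hanonneg ξ hξ hξ0]⟩
    · rcases eq_or_lt_of_le hy'.2 with h3 | h3
      · exact ⟨η, hηI, by rw [h3, hη0], by rw [h3, hslope b hbnonneg η hη hη0]⟩
      · obtain ⟨x0, hx0, hx0'⟩ := hneg y ⟨h1, h3⟩
        obtain ⟨x, hx1, hx2⟩ := H.exists_left (hsubI y hy') hx0 hx0'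
        have hxI : x ∈ Icc (-r) r := ⟨hx1.1.le, by linarith [hx0.2, hx1.2]⟩
        exact ⟨x, hxI, hx2, (H.slope_left (hsubI y hy') hx0 hxI hx0' hx2 hx1.2).le⟩
  refine ⟨a, b, ξ, η, hAa, haA', hB'b, hbB, hξ, hη, hξ0, hη0, hinside, ?_, hfold, ?_⟩
  · intro y hy'
    obtain ⟨x, hx1, hx2, -⟩ := hexp y hy'
    exact ⟨x, hx1, hx2⟩
  · -- connectedness
    set Γ : Set (ℝ × ℝ) := {p : ℝ × ℝ | p.1 ∈ Icc (-r) r ∧ p.2 ∈ Icc A B ∧ h p = 0} with hΓ
    have hΓc : IsCompact Γ := by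
      have : Γ = (Icc (-r) r ×ˢ Icc A B) ∩ {p | h p = 0} := by
        ext p
        simp only [hΓ, mem_ofPred_eq, mem_inter_iff, mem_prod]
        tauto
      rw [this]
      exact (isCompact_Icc.prod isCompact_Icc).inter_right (isClosed_eq H.cont continuous_const)
    set Γp : Set (ℝ × ℝ) := Γ ∩ {p | 0 ≤ hx p} with hΓp
    set Γm : Set (ℝ × ℝ) := Γ ∩ {p | hx p ≤ 0} with hΓm
    have hΓpc : IsCompact Γp := hΓc.inter_right (isClosed_le continuous_const H.contx)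
    have hΓmc : IsCompact Γm := hΓc.inter_right (isClosed_le H.contx continuous_const)
    have hsndp : Prod.snd '' Γp = Icc a b := by
      ext y
      constructor
      · rintro ⟨⟨x, y'⟩, ⟨⟨h1, h2, h3⟩, -⟩, rfl⟩
        exact hinside x h1 y' h2 h3
      · intro hy'
        obtain ⟨x, hx1, hx2, hx3⟩ := hexp y hy'
        exact ⟨(x, y), ⟨⟨hx1, hsubI y hy', hx2⟩, hx3⟩, rfl⟩
    have hsndm : Prod.snd '' Γm = Icc a b := by
      ext y
      constructor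
      · rintro ⟨⟨x, y'⟩, ⟨⟨h1, h2, h3⟩, -⟩, rfl⟩
        exact hinside x h1 y' h2 h3
      · intro hy'
        obtain ⟨x, hx1, hx2, hx3⟩ := hexm y hy'
        exact ⟨(x, y), ⟨⟨hx1, hsubI y hy', hx2⟩, hx3⟩, rfl⟩
    have hinjp : InjOn Prod.snd Γp := by
      rintro ⟨x, y⟩ ⟨⟨h1, h2, h3⟩, h4⟩ ⟨x', y'⟩ ⟨⟨h1', h2', h3'⟩, h4'⟩ heq
      simp only at heq
      subst heq
      have : x = x' := H.unique_nonneg h2 h1 h1' h3 h3' h4 h4'
      rw [this]
    have hinjm : InjOn Prod.snd Γm := by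
      rintro ⟨x, y⟩ ⟨⟨h1, h2, h3⟩, h4⟩ ⟨x', y'⟩ ⟨⟨h1', h2', h3'⟩, h4'⟩ heq
      simp only at heq
      subst heq
      have : x = x' := H.unique_nonpos h2 h1 h1' h3 h3' h4 h4'
      rw [this]
    have hpc : IsPreconnected Γp := isPreconnected_of_injOn hΓpc hinjp (hsndp ▸ isPreconnected_Icc)
    have hmc : IsPreconnected Γm := isPreconnected_of_injOn hΓmc hinjm (hsndm ▸ isPreconnected_Icc)
    have hξΓ : (ξ, a) ∈ Γ := ⟨hξI, haI, hξ0⟩
    have hs := hslope a hanonneg ξ hξ hξ0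
    have hunion : Γ = Γp ∪ Γm := by
      ext p
      constructor
      · intro hp
        rcases le_total 0 (hx p) with h1 | h1
        · exact Or.inl ⟨hp, h1⟩
        · exact Or.inr ⟨hp, h1⟩
      · rintro (h1 | h1) <;> exact h1.1
    refine ⟨⟨_, hξΓ⟩, ?_⟩
    rw [hunion]
    exact IsPreconnected.union (ξ, a) ⟨hξΓ, hs.ge⟩ ⟨hξΓ, hs.le⟩ hpc hmc

end Box

end Pool.Agent.Helper41.CanardCurve
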