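import Mathlib

set_option autoImplicit false

/-!
# Slow-fast systems on the two-torus and grand canards: definitions
-/

namespace Pool.Agent.Helper41.Canard

open Set Filter Topology
open scoped ContDiff

/-- A slow-fast system `x' = f(x,y,ε)`, `y' = ε g(x,y,ε)` on the two-torus `ℝ²/(2πℤ)²`: `f` and `g`
are smooth functions of `(x,y,ε)`, `2π`-periodic in `x` and in `y`, and `g > 0` for `ε ≥ 0`. -/
structure SlowFast where
  /-- the fast component -/
  f : ℝ × ℝ × ℝ → ℝ
  /-- the slow component -/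
  g : ℝ × ℝ × ℝ → ℝ
  smooth_f : ContDiff ℝ ∞ f
  smooth_g : ContDiff ℝ ∞ g
  f_perx : ∀ x y ε, f (x + 2 * Real.pi, y, ε) = f (x, y, ε)
  f_pery : ∀ x y ε, f (x, y + 2 * Real.pi, ε) = f (x, y, ε)
  g_perx : ∀ x y ε, g (x + 2 * Real.pi, y, ε) = g (x, y, ε)
  g_pery : ∀ x y ε, g (x, y + 2 * Real.pi, ε) = g (x, y, ε)
  g_pos : ∀ x y ε, 0 ≤ ε → 0 < g (x, y, ε)

/-- The `k`-th total derivative of a smooth function, as a continuous map. -/
noncomputable def derivMap (k : ℕ) (u : ℝ × ℝ × ℝ → ℝ) (hu : ContDiff ℝ ∞ u) :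
    C(ℝ × ℝ × ℝ, ContinuousMultilinearMap ℝ (fun _ : Fin k => ℝ × ℝ × ℝ) ℝ) :=
  ⟨iteratedFDeriv ℝ k u, hu.continuous_iteratedFDeriv (by exact_mod_cast le_top)⟩

/-- The `C^∞` topology on the space of systems: the coarsest topology for which all the maps
`F ↦ (k-th derivative of f, k-th derivative of g)` are continuous, where the spaces of continuous
maps carry the compact-open topology, i.e. the topology of uniform convergence on compact sets. -/
noncomputable instance : TopologicalSpace SlowFast :=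
  ⨅ k : ℕ, TopologicalSpace.induced
    (fun F : SlowFast => (derivMap k F.f F.smooth_f, derivMap k F.g F.smooth_g)) inferInstance

/-- The circle `ℝ/2πℤ`. -/
abbrev Circ : Type := AddCircle (2 * Real.pi)

/-- The two-torus `(ℝ/2πℤ)²`. -/
abbrev Torus : Type := Circ × Circ

/-- The covering map `ℝ² → (ℝ/2πℤ)²`. -/
noncomputable def toTorus (p : ℝ × ℝ) : Torus := ((p.1 : Circ), (p.2 : Circ))

/-- The partial derivative `f_x` at `ε = 0`. -/
noncomputable def SlowFast.fx (F : SlowFast) (p : ℝ × ℝ) : ℝ := deriv (fun x => F.f (x, p.2, 0)) p.1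

/-- The partial derivative `f_y` at `ε = 0`. -/
noncomputable def SlowFast.fy (F : SlowFast) (p : ℝ × ℝ) : ℝ := deriv (fun y => F.f (p.1, y, 0)) p.2

/-- The partial derivative `f_xx` at `ε = 0`. -/
noncomputable def SlowFast.fxx (F : SlowFast) (p : ℝ × ℝ) : ℝ := deriv (fun x => F.fx (x, p.2)) p.1

/-- The slow curve `M = {f(x,y,0) = 0}` in the two-torus. -/
def SlowFast.slowCurve (F : SlowFast) : Set Torus := toTorus '' {p | F.f (p.1, p.2, 0) = 0}

/-- The slow curve of `F` is simple unconnected: it has exactly two connected components `M 0`,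
`M 1` (nonempty disjoint closed connected sets with union `M`), whose projections to the `y`-circle
are the disjoint arcs `[a 0, b 0]`, `[a 1, b 1]` with `b 0 < a 1` and `b 1 < a 0 + 2π`; each `M i`
has exactly two fold points (points with `f_x = 0`), one over `a i` and one over `b i`, and
`f_xx ≠ 0`, `f_y ≠ 0` at these. -/
structure SimpleUnconnected (F : SlowFast) (a b : Fin 2 → ℝ) (M : Fin 2 → Set Torus) : Prop where
  order : a 0 < b 0 ∧ b 0 < a 1 ∧ a 1 < b 1 ∧ b 1 < a 0 + 2 * Real.pi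
  union : M 0 ∪ M 1 = F.slowCurve
  disj : Disjoint (M 0) (M 1)
  closed : ∀ i, IsClosed (M i)
  conn : ∀ i, IsConnected (M i)
  proj : ∀ i, Prod.snd '' (M i) = (fun y : ℝ => (y : Circ)) '' Icc (a i) (b i)
  folds : ∀ i, ∃ ξ η : ℝ,
    toTorus (ξ, a i) ∈ M i ∧ toTorus (η, b i) ∈ M i ∧
    (∀ p : ℝ × ℝ, toTorus p ∈ M i →
      (F.fx p = 0 ↔ toTorus p = toTorus (ξ, a i) ∨ toTorus p = toTorus (η, b i))) ∧
    F.fxx (ξ, a i) ≠ 0 ∧ F.fy (ξ, a i) ≠ 0 ∧ F.fxx (η, b i) ≠ 0 ∧ F.fy (η, b i) ≠ 0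

/-- A segment of a circle `{y = level}` of the torus: `{(x, level) : left ≤ x ≤ right}`. -/
structure Segment where
  /-- the level `y` -/
  level : ℝ
  /-- left end point -/
  left : ℝ
  /-- right end point -/
  right : ℝ

/-- The segments `Jm i` (that is `J_i^-`) and `Jp i` (that is `J_i^+`) are as in the definition of
grand canards, for the parameter `δ`: each is a proper segment of its circle; `Jm i` is at a level in
`(a i, a i + δ)` and meets the attracting part `M_i^-` (where `f_x < 0`) but not the repelling part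
`M_i^+` (where `f_x > 0`); `Jp i` is at a level in `(b i - δ, b i)` and meets `M_i^+` but not
`M_i^-`. -/
structure Admissible (F : SlowFast) (a b : Fin 2 → ℝ) (M : Fin 2 → Set Torus) (δ : ℝ)
    (Jm Jp : Fin 2 → Segment) : Prop where
  segm : ∀ i, (Jm i).left < (Jm i).right ∧ (Jm i).right < (Jm i).left + 2 * Real.pi
  segp : ∀ i, (Jp i).left < (Jp i).right ∧ (Jp i).right < (Jp i).left + 2 * Real.pi
  levelm : ∀ i, (Jm i).level ∈ Ioo (a i) (a i + δ)
  levelp : ∀ i, (Jp i).level ∈ Ioo (b i - δ) (b i)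
  meetm : ∀ i, ∃ x ∈ Icc (Jm i).left (Jm i).right,
    toTorus (x, (Jm i).level) ∈ M i ∧ F.fx (x, (Jm i).level) < 0
  avoidm : ∀ i, ∀ x ∈ Icc (Jm i).left (Jm i).right,
    ¬ (toTorus (x, (Jm i).level) ∈ M i ∧ 0 < F.fx (x, (Jm i).level))
  meetp : ∀ i, ∃ x ∈ Icc (Jp i).left (Jp i).right,
    toTorus (x, (Jp i).level) ∈ M i ∧ 0 < F.fx (x, (Jp i).level)
  avoidp : ∀ i, ∀ x ∈ Icc (Jp i).left (Jp i).right,
    ¬ (toTorus (x, (Jp i).level) ∈ M i ∧ F.fx (x, (Jp i).level) < 0)

/-- There is a grand canard from the segment `J` to the segment `J'` at the parameter `ε`: an orbit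
`(X(t), Y(t))`, `0 ≤ t ≤ T`, of the system (written in the universal cover) which starts at a point
of `J` and whose first subsequent crossing of the circle `{y = J'.level}` of the torus, which takes
place at the time `T > 0`, is at a point of `J'`. -/
def GrandCanard (F : SlowFast) (J J' : Segment) (ε : ℝ) : Prop :=
  ∃ (T : ℝ) (X Y : ℝ → ℝ), 0 < T ∧
    (∀ t ∈ Icc 0 T, HasDerivWithinAt X (F.f (X t, Y t, ε)) (Icc 0 T) t) ∧
    (∀ t ∈ Icc 0 T, HasDerivWithinAt Y (ε * F.g (X t, Y t, ε)) (Icc 0 T) t) ∧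
    Y 0 = J.level ∧ X 0 ∈ Icc J.left J.right ∧
    (∀ t ∈ Ioo 0 T, (Y t : Circ) ≠ (J'.level : Circ)) ∧
    (Y T : Circ) = (J'.level : Circ) ∧
    ∃ k : ℤ, X T + 2 * Real.pi * k ∈ Icc J'.left J'.right

end Pool.Agent.Helper41.Canard
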