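import Mathlib

set_option autoImplicit false

/-!
# Scalar non-autonomous ODEs: existence, comparison, fast rotation
-/

namespace Pool.Agent.Helper41.CanardODE

open Set Filter Topology
open scoped NNReal

/-- Global existence on a compact interval for bounded Lipschitz fields. -/
lemma exists_sol {v : ℝ → ℝ → ℝ} {a b : ℝ} (hab : a ≤ b) {K L : ℝ≥0}
    (hL : ∀ t ∈ Icc a b, ∀ x, |v t x| ≤ L)
    (hK : ∀ t ∈ Icc a b, LipschitzWith K (v t))
    (hc : ∀ x, ContinuousOn (fun t => v t x) (Icc a b)) (x0 : ℝ) :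
    ∃ x : ℝ → ℝ, x a = x0 ∧ ∀ t ∈ Icc a b, HasDerivWithinAt x (v t (x t)) (Icc a b) t := by
  have hpl : IsPicardLindelof v (⟨a, left_mem_Icc.2 hab⟩ : Icc a b) x0
      (L * (b - a).toNNReal : ℝ≥0) 0 L K :=
    { lipschitzOnWith := fun t ht => (hK t ht).lipschitzOnWith
      continuousOn := fun x _ => hc x
      norm_le := fun t ht x _ => by
        rw [Real.norm_eq_abs]
        exact hL t ht x
      mul_max_le := by
        simp only [sub_self, NNReal.coe_zero, sub_zero, NNReal.coe_mul]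
        rw [max_eq_left (sub_nonneg.2 hab), Real.coe_toNNReal _ (sub_nonneg.2 hab)] }
  obtain ⟨x, h1, h2⟩ := hpl.exists_eq_forall_mem_Icc_hasDerivWithinAt₀
  exact ⟨x, h1, h2⟩

lemma hasDerivWithinAt_Ici {u : ℝ → ℝ} {u' a b t : ℝ} (h : HasDerivWithinAt u u' (Icc a b) t)
    (ht : t ∈ Ico a b) : HasDerivWithinAt u u' (Ici t) t :=
  (h.mono_of_mem_nhdsWithin (Icc_mem_nhdsGE_of_mem ht))

lemma continuousOn_of_deriv {u u' : ℝ → ℝ} {a b : ℝ}
    (h : ∀ t ∈ Icc a b, HasDerivWithinAt u (u' t) (Icc a b) t) : ContinuousOn u (Icc a b) :=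
  fun t ht => (h t ht).continuousWithinAt

/-- Comparison of a subsolution and a supersolution. -/
lemma comparison {v : ℝ → ℝ → ℝ} {a b K : ℝ}
    (hK : ∀ t ∈ Icc a b, ∀ x y, |v t x - v t y| ≤ K * |x - y|)
    {u w u' w' : ℝ → ℝ}
    (hu : ∀ t ∈ Icc a b, HasDerivWithinAt u (u' t) (Icc a b) t)
    (hw : ∀ t ∈ Icc a b, HasDerivWithinAt w (w' t) (Icc a b) t)
    (hu' : ∀ t ∈ Icc a b, u' t ≤ v t (u t)) (hw' : ∀ t ∈ Icc a b, v t (w t) ≤ w' t)
    (h0 : u a ≤ w a) : ∀ t ∈ Icc a b, u t ≤ w t := by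
  intro t ht
  refine le_of_forall_pos_le_add (fun η hη => ?_)
  -- perturb `w` by a small exponential
  set c : ℝ := η * Real.exp (-((K + 1) * (t - a))) with hc
  have hcpos : 0 < c := by positivity
  have key : ∀ ⦃s⦄, s ∈ Icc a b → u s ≤ w s + c * Real.exp ((K + 1) * (s - a)) := by
    refine image_le_of_deriv_right_lt_deriv_boundary' (f' := u')
      (B' := fun s => w' s + c * (Real.exp ((K + 1) * (s - a)) * (K + 1)))
      (continuousOn_of_deriv hu) (fun s hs => hasDerivWithinAt_Ici (hu s ⟨hs.1, hs.2.le⟩) hs)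
      ?_ ?_ ?_ ?_
    · simp only [sub_self, mul_zero, Real.exp_zero, mul_one]
      linarith
    · exact (continuousOn_of_deriv hw).add (by fun_prop)
    · intro s hs
      refine (hasDerivWithinAt_Ici (hw s ⟨hs.1, hs.2.le⟩) hs).add ?_
      have h1 : HasDerivAt (fun s : ℝ => (K + 1) * (s - a)) (K + 1) s := by
        simpa using ((hasDerivAt_id s).sub_const a).const_mul (K + 1)
      exact ((h1.exp).const_mul c).hasDerivWithinAt
    · intro s hs hEq
      have hs' : s ∈ Icc a b := ⟨hs.1, hs.2.le⟩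
      have h1 := hu' s hs'
      have h2 := hw' s hs'
      have h3 := (abs_le.1 (hK s hs' (u s) (w s))).2
      set E := Real.exp ((K + 1) * (s - a)) with hE
      have hEpos : 0 < E := Real.exp_pos _
      have h4 : u s - w s = c * E := by rw [hEq]; ring
      have h5 : |u s - w s| = c * E := by rw [h4]; exact abs_of_pos (by positivity)
      rw [h5] at h3
      have h6 : 0 < c * E := by positivity
      nlinarith
  have := key ht
  have h7 : c * Real.exp ((K + 1) * (t - a)) = η := by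
    rw [hc, mul_assoc, ← Real.exp_add]
    simp
  linarith

/-- Two solutions of nearby equations with the same initial value stay close. -/
lemma close_sol {v₁ v₂ : ℝ → ℝ → ℝ} {a b : ℝ} (hab : a ≤ b) {K : ℝ≥0} {η : ℝ}
    (hK : ∀ t ∈ Icc a b, LipschitzWith K (v₁ t))
    (hη : ∀ t ∈ Icc a b, ∀ x, |v₂ t x - v₁ t x| ≤ η) {x₁ x₂ : ℝ → ℝ}
    (h₁ : ∀ t ∈ Icc a b, HasDerivWithinAt x₁ (v₁ t (x₁ t)) (Icc a b) t)
    (h₂ : ∀ t ∈ Icc a b, HasDerivWithinAt x₂ (v₂ t (x₂ t)) (Icc a b) t)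
    (h0 : x₁ a = x₂ a) : |x₁ b - x₂ b| ≤ gronwallBound 0 K η (b - a) := by
  have := dist_le_of_approx_trajectories_ODE_of_mem (v := v₁) (s := fun _ => univ) (K := K)
    (f := x₁) (g := x₂) (f' := fun t => v₁ t (x₁ t)) (g' := fun t => v₂ t (x₂ t))
    (a := a) (b := b) (εf := 0) (εg := η) (δ := 0)
    (fun t ht => (hK t ⟨ht.1, ht.2.le⟩).lipschitzOnWith)
    (continuousOn_of_deriv h₁)
    (fun t ht => hasDerivWithinAt_Ici (h₁ t ⟨ht.1, ht.2.le⟩) ht)
    (fun t _ => by simp) (fun _ _ => trivial)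
    (continuousOn_of_deriv h₂)
    (fun t ht => hasDerivWithinAt_Ici (h₂ t ⟨ht.1, ht.2.le⟩) ht)
    (fun t ht => by
      rw [Real.dist_eq]
      exact hη t ⟨ht.1, ht.2.le⟩ _)
    (fun _ _ => trivial) (by rw [h0]; simp) b ⟨hab, le_rfl⟩
  rw [Real.dist_eq] at this
  simpa using this

/-- Fast rotation: adding the small term `s * χ` to the numerator of a fast field makes the
solution advance by more than a full turn, provided `ε` is small compared with `s`. -/
lemma rotation {φ : ℝ → ℝ → ℝ} {χ : ℝ → ℝ} {α c d β B m s ε : ℝ}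
    (hαc : α ≤ c) (hcd : c < d) (hdβ : d ≤ β) (hB : 0 ≤ B) (hm : 0 < m)
    (hs : 0 < s) (hs1 : s ≤ 1) (hε : 0 < ε)
    (hper : ∀ t ∈ Icc α β, ∀ x, φ t (x + 2 * Real.pi) = φ t x)
    (hLx : ∀ t ∈ Icc α β, ∀ x y, |φ t x - φ t y| ≤ B * |x - y|)
    (hLt : ∀ t ∈ Icc α β, ∀ t' ∈ Icc α β, ∀ x, |φ t x - φ t' x| ≤ B * |t - t'|)
    (hbd : ∀ t ∈ Icc α β, ∀ x, |φ t x| ≤ B)
    (hpos : ∀ t ∈ Icc c d, ∀ x, m ≤ φ t x)
    (hχ0 : ∀ t, 0 ≤ χ t) (hχ1 : ∀ t ∈ Icc c d, 1 ≤ χ t)
    (hsmall : ε * (2 * Real.pi) ≤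
      s / (2 * (B + B * (d - c) + 1)) * ((d - c) / 2) * m)
    {x₀ x₁ : ℝ → ℝ}
    (h₀ : ∀ t ∈ Icc α β, HasDerivWithinAt x₀ (φ t (x₀ t) / ε) (Icc α β) t)
    (h₁ : ∀ t ∈ Icc α β, HasDerivWithinAt x₁ ((φ t (x₁ t) + s * χ t) / ε) (Icc α β) t)
    (h01 : x₀ α = x₁ α) : x₀ β + 2 * Real.pi ≤ x₁ β := by
  have hαβ : α ≤ β := by linarith
  set κ : ℝ := s / (2 * (B + B * (d - c) + 1)) with hκ
  have hden : 0 < 2 * (B + B * (d - c) + 1) := by nlinarith
  have hκpos : 0 < κ := by positivity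
  have hκ1 : κ ≤ 1 := by
    rw [hκ, div_le_one hden]
    nlinarith
  set e : ℝ := (c + d) / 2 with he
  have hce : c < e := by rw [he]; linarith
  have hed : e < d := by rw [he]; linarith
  have hec : e - c = (d - c) / 2 := by rw [he]; ring
  have hLxε : ∀ t ∈ Icc α β, ∀ x y, |φ t x / ε - φ t y / ε| ≤ B / ε * |x - y| := by
    intro t ht x y
    rw [← sub_div, abs_div, abs_of_pos hε, div_mul_eq_mul_div]
    exact div_le_div_of_nonneg_right (hLx t ht x y) hε.le
  have hx1super : ∀ t ∈ Icc α β, φ t (x₁ t) / ε ≤ (φ t (x₁ t) + s * χ t) / ε := by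
    intro t _
    refine div_le_div_of_nonneg_right ?_ hε.le
    have := mul_nonneg hs.le (hχ0 t)
    linarith
  -- step 1 : on `[α, c]`
  have step1 : x₀ c ≤ x₁ c := by
    have := comparison (v := fun t x => φ t x / ε) (a := α) (b := β) (K := B / ε)
      hLxε h₀ h₁ (fun t _ => le_rfl) hx1super h01.le c ⟨hαc, by linarith⟩
    exact this
  -- step 2 : the subsolution `z(t) = x₀ (t + κ (t - c))` on `[c, e]`
  have hmaps : ∀ t ∈ Icc c e, t + κ * (t - c) ∈ Icc c d := by
    intro t ht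
    constructor
    · nlinarith [ht.1, mul_nonneg hκpos.le (sub_nonneg.2 ht.1)]
    · have : κ * (t - c) ≤ 1 * (t - c) :=
        mul_le_mul_of_nonneg_right hκ1 (sub_nonneg.2 ht.1)
      have h2 := ht.2
      rw [he] at h2
      linarith
  have hz : ∀ t ∈ Icc c e, HasDerivWithinAt (fun t => x₀ (t + κ * (t - c)))
      ((φ (t + κ * (t - c)) (x₀ (t + κ * (t - c))) / ε) * (1 + κ)) (Icc c e) t := by
    intro t ht
    have hmem : t + κ * (t - c) ∈ Icc c d := hmaps t ht
    have h1 : HasDerivWithinAt x₀ (φ (t + κ * (t - c)) (x₀ (t + κ * (t - c))) / ε) (Icc α β)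
        (t + κ * (t - c)) := h₀ _ ⟨by linarith [hmem.1], by linarith [hmem.2]⟩
    have h2 : HasDerivWithinAt (fun t => t + κ * (t - c)) (1 + κ) (Icc c e) t := by
      have h3 : HasDerivAt (fun t : ℝ => t + κ * (t - c)) (1 + κ * 1) t :=
        (hasDerivAt_id' t).add (((hasDerivAt_id' t).sub_const c).const_mul κ)
      rw [mul_one] at h3
      exact h3.hasDerivWithinAt
    exact h1.comp t h2 (fun t' ht' => by
      have := hmaps t' ht'
      exact ⟨by linarith [this.1], by linarith [this.2]⟩)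
  have hzsub : ∀ t ∈ Icc c e,
      (φ (t + κ * (t - c)) (x₀ (t + κ * (t - c))) / ε) * (1 + κ) ≤
        (φ t (x₀ (t + κ * (t - c))) + s * χ t) / ε := by
    intro t ht
    set X := x₀ (t + κ * (t - c)) with hX
    have hmem : t + κ * (t - c) ∈ Icc c d := hmaps t ht
    have hmem' : t + κ * (t - c) ∈ Icc α β := ⟨by linarith [hmem.1], by linarith [hmem.2]⟩
    have ht' : t ∈ Icc α β := ⟨by linarith [ht.1], by linarith [ht.2]⟩
    have e1 := (abs_le.1 (hLt _ hmem' t ht' X)).2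
    have e2 := (abs_le.1 (hbd _ hmem' X)).2
    have e3 : |t + κ * (t - c) - t| = κ * (t - c) := by
      rw [add_sub_cancel_left]
      exact abs_of_nonneg (mul_nonneg hκpos.le (sub_nonneg.2 ht.1))
    rw [e3] at e1
    have e4 : κ * (t - c) ≤ κ * (d - c) :=
      mul_le_mul_of_nonneg_left (by linarith [ht.2]) hκpos.le
    have e5 : 1 ≤ χ t := hχ1 t ⟨ht.1, by linarith [ht.2]⟩
    have e6 : κ * (B + B * (d - c) + 1) = s / 2 := by
      rw [hκ, div_mul_eq_mul_div, div_eq_iff hden.ne']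
      ring
    have e7 : s ≤ s * χ t := by nlinarith
    rw [div_mul_eq_mul_div]
    refine div_le_div_of_nonneg_right ?_ hε.le
    have e8 : B * (κ * (t - c)) ≤ B * (κ * (d - c)) := mul_le_mul_of_nonneg_left e4 hB
    have e9 : φ (t + κ * (t - c)) X * κ ≤ B * κ := mul_le_mul_of_nonneg_right e2 hκpos.le
    nlinarith
  have hLxs : ∀ t ∈ Icc c e, ∀ x y,
      |(φ t x + s * χ t) / ε - (φ t y + s * χ t) / ε| ≤ B / ε * |x - y| := by
    intro t ht x y
    have ht' : t ∈ Icc α β := ⟨by linarith [ht.1], by linarith [ht.2]⟩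
    have h3 : (φ t x + s * χ t) / ε - (φ t y + s * χ t) / ε = φ t x / ε - φ t y / ε := by ring
    rw [h3]
    exact hLxε t ht' x y
  have hsub : Icc c e ⊆ Icc α β := fun t ht => ⟨by linarith [ht.1], by linarith [ht.2]⟩
  have step2 : x₀ (e + κ * (e - c)) ≤ x₁ e := by
    have := comparison (v := fun t x => (φ t x + s * χ t) / ε) (a := c) (b := e) (K := B / ε)
      hLxs hz (fun t ht => (h₁ t (hsub ht)).mono hsub) hzsub
      (fun t _ => le_rfl) (by simpa using step1) e ⟨hce.le, le_rfl⟩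
    exact this
  -- step 3 : `x₀` advances by at least `2π` on `[e, e + κ (e - c)]`
  have hlen : 0 < κ * (e - c) := mul_pos hκpos (by linarith)
  have hmem3 : e + κ * (e - c) ∈ Icc c d := hmaps e ⟨hce.le, le_rfl⟩
  have step3 : x₀ e + 2 * Real.pi ≤ x₀ (e + κ * (e - c)) := by
    have hsub3 : Icc e (e + κ * (e - c)) ⊆ Icc α β := fun t ht =>
      ⟨by linarith [ht.1], by linarith [ht.2, hmem3.2]⟩
    have := comparison (v := fun _ _ => m / ε) (a := e) (b := e + κ * (e - c)) (K := 0)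
      (by intro t _ x y; simp) (u := fun t => x₀ e + m / ε * (t - e)) (u' := fun _ => m / ε)
      (w := x₀) (w' := fun t => φ t (x₀ t) / ε)
      (by
        intro t _
        have := (((hasDerivAt_id t).sub_const e).const_mul (m / ε)).const_add (x₀ e)
        simpa using this.hasDerivWithinAt)
      (fun t ht => (h₀ t (hsub3 ht)).mono hsub3) (fun t _ => le_rfl)
      (by
        intro t ht
        refine div_le_div_of_nonneg_right (hpos t ⟨by linarith [ht.1], by linarith [ht.2, hmem3.2]⟩ _) hε.le)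
      (by simp) (e + κ * (e - c)) ⟨by linarith, le_rfl⟩
    simp only [add_sub_cancel_left] at this
    have h4 : 2 * Real.pi ≤ m / ε * (κ * (e - c)) := by
      rw [div_mul_eq_mul_div, le_div_iff₀ hε, hec]
      calc 2 * Real.pi * ε = ε * (2 * Real.pi) := by ring
        _ ≤ κ * ((d - c) / 2) * m := hsmall
        _ = m * (κ * ((d - c) / 2)) := by ring
    linarith
  -- step 4 : the order is preserved on `[e, β]`
  have hsub4 : Icc e β ⊆ Icc α β := fun t ht => ⟨by linarith [ht.1], ht.2⟩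
  have := comparison (v := fun t x => φ t x / ε) (a := e) (b := β) (K := B / ε)
    (fun t ht => hLxε t (hsub4 ht)) (u := fun t => x₀ t + 2 * Real.pi)
    (u' := fun t => φ t (x₀ t) / ε) (w := x₁) (w' := fun t => (φ t (x₁ t) + s * χ t) / ε)
    (fun t ht => ((h₀ t (hsub4 ht)).mono hsub4).add_const _)
    (fun t ht => (h₁ t (hsub4 ht)).mono hsub4)
    (fun t ht => by
      simp only [hper t (hsub4 ht)]
      exact le_rfl)
    (fun t ht => hx1super t (hsub4 ht)) (by linarith) β ⟨by linarith, le_rfl⟩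
  exact this

/-- With the extra parameter `s ∈ [0, s₀]` one can reach any target modulo `2π`. -/
lemma exists_param {φ : ℝ → ℝ → ℝ} {χ : ℝ → ℝ} {α c d β B m s₀ ε : ℝ}
    (hαc : α ≤ c) (hcd : c < d) (hdβ : d ≤ β) (hB : 0 ≤ B) (hm : 0 < m)
    (hs : 0 < s₀) (hs1 : s₀ ≤ 1) (hε : 0 < ε)
    (hper : ∀ t ∈ Icc α β, ∀ x, φ t (x + 2 * Real.pi) = φ t x)
    (hLx : ∀ t ∈ Icc α β, ∀ x y, |φ t x - φ t y| ≤ B * |x - y|)
    (hLt : ∀ t ∈ Icc α β, ∀ t' ∈ Icc α β, ∀ x, |φ t x - φ t' x| ≤ B * |t - t'|)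
    (hbd : ∀ t ∈ Icc α β, ∀ x, |φ t x| ≤ B)
    (hpos : ∀ t ∈ Icc c d, ∀ x, m ≤ φ t x)
    (hχ0 : ∀ t, 0 ≤ χ t) (hχ2 : ∀ t, χ t ≤ 1) (hχc : Continuous χ)
    (hχ1 : ∀ t ∈ Icc c d, 1 ≤ χ t)
    (hsmall : ε * (2 * Real.pi) ≤
      s₀ / (2 * (B + B * (d - c) + 1)) * ((d - c) / 2) * m) (p q : ℝ) :
    ∃ s ∈ Icc 0 s₀, ∃ (x : ℝ → ℝ) (k : ℤ), x α = p ∧ x β = q + 2 * Real.pi * k ∧
      ∀ t ∈ Icc α β, HasDerivWithinAt x ((φ t (x t) + s * χ t) / ε) (Icc α β) t := by
  have hαβ : α ≤ β := by linarith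
  -- for each `s` choose a solution
  have hex : ∀ s : ℝ, ∃ x : ℝ → ℝ, x α = p ∧
      ∀ t ∈ Icc α β, HasDerivWithinAt x ((φ t (x t) + s * χ t) / ε) (Icc α β) t := by
    intro s
    refine exists_sol (v := fun t x => (φ t x + s * χ t) / ε) hαβ
      (K := ⟨B / ε, by positivity⟩) (L := ⟨(B + |s|) / ε, by positivity⟩) ?_ ?_ ?_ p
    · intro t ht x
      rw [abs_div, abs_of_pos hε]
      change _ ≤ (B + |s|) / ε
      refine div_le_div_of_nonneg_right ?_ hε.le
      refine (abs_add_le _ _).trans (add_le_add (hbd t ht x) ?_)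
      rw [abs_mul, abs_of_nonneg (hχ0 t)]
      exact mul_le_of_le_one_right (abs_nonneg _) (hχ2 t)
    · intro t ht
      refine LipschitzWith.of_dist_le_mul (fun x y => ?_)
      rw [Real.dist_eq, Real.dist_eq]
      change _ ≤ B / ε * _
      rw [← sub_div, abs_div, abs_of_pos hε, div_mul_eq_mul_div]
      refine div_le_div_of_nonneg_right ?_ hε.le
      have h3 : φ t x + s * χ t - (φ t y + s * χ t) = φ t x - φ t y := by ring
      rw [h3]
      exact hLx t ht x y
    · intro x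
      have h1 : ContinuousOn (fun t => φ t x) (Icc α β) := by
        have : LipschitzOnWith ⟨B, hB⟩ (fun t => φ t x) (Icc α β) := by
          refine LipschitzOnWith.of_dist_le_mul (fun t ht t' ht' => ?_)
          rw [Real.dist_eq, Real.dist_eq]
          exact hLt t ht t' ht' x
        exact this.continuousOn
      exact (h1.add (continuousOn_const.mul hχc.continuousOn)).div_const _
  choose X hXα hX using hex
  -- continuity in `s`
  have hcont : Continuous (fun s => X s β) := by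
    rw [Metric.continuous_iff]
    intro s η hη
    -- gronwall bound tends to 0
    have hg : Tendsto (fun r : ℝ => gronwallBound 0 (⟨B / ε, by positivity⟩ : ℝ≥0) (r / ε) (β - α))
        (𝓝 0) (𝓝 0) := by
      have h1 : Continuous (fun r : ℝ => gronwallBound 0 (⟨B / ε, by positivity⟩ : ℝ≥0) (r / ε)
          (β - α)) := (gronwallBound_continuous_ε _ _ _).comp (continuous_id.div_const _)
      have h2 := h1.tendsto 0
      simpa [gronwallBound_ε0_δ0] using h2
    obtain ⟨ρ, hρ, hρ'⟩ := Metric.tendsto_nhds_nhds.1 hg η hη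
    refine ⟨ρ, hρ, fun s' hs' => ?_⟩
    have h3 := close_sol (v₁ := fun t x => (φ t x + s' * χ t) / ε)
      (v₂ := fun t x => (φ t x + s * χ t) / ε) hαβ (K := ⟨B / ε, by positivity⟩)
      (η := |s' - s| / ε) (by
        intro t ht
        refine LipschitzWith.of_dist_le_mul (fun x y => ?_)
        rw [Real.dist_eq, Real.dist_eq]
        change _ ≤ B / ε * _
        rw [← sub_div, abs_div, abs_of_pos hε, div_mul_eq_mul_div]
        refine div_le_div_of_nonneg_right ?_ hε.le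
        have h3 : φ t x + s' * χ t - (φ t y + s' * χ t) = φ t x - φ t y := by ring
        rw [h3]
        exact hLx t ht x y)
      (by
        intro t _ x
        rw [← sub_div, abs_div, abs_of_pos hε]
        refine div_le_div_of_nonneg_right ?_ hε.le
        have : φ t x + s * χ t - (φ t x + s' * χ t) = (s - s') * χ t := by ring
        rw [this, abs_mul, abs_of_nonneg (hχ0 t), abs_sub_comm]
        exact mul_le_of_le_one_right (abs_nonneg _) (hχ2 t))
      (hX s') (hX s) (by rw [hXα, hXα])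
    have h4 := hρ' (x := |s' - s|) (by
      rw [Real.dist_eq] at hs' ⊢
      simpa using hs')
    rw [Real.dist_eq] at h4 ⊢
    refine h3.trans_lt ?_
    have h5 := le_abs_self (gronwallBound 0 (⟨B / ε, by positivity⟩ : ℝ≥0) (|s' - s| / ε) (β - α))
    simp only [sub_zero] at h4
    exact h5.trans_lt h4
  -- rotation
  have hrot : X 0 β + 2 * Real.pi ≤ X s₀ β := by
    refine rotation hαc hcd hdβ hB hm hs hs1 hε hper hLx hLt hbd hpos hχ0 hχ1 hsmall
      (x₀ := X 0) (x₁ := X s₀) ?_ (hX s₀) (by rw [hXα, hXα])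
    intro t ht
    have := hX 0 t ht
    simpa using this
  -- choose the integer
  obtain ⟨k, hk1, hk2⟩ : ∃ k : ℤ, X 0 β ≤ q + 2 * Real.pi * k ∧
      q + 2 * Real.pi * k ≤ X 0 β + 2 * Real.pi := by
    have hπ : 0 < 2 * Real.pi := by positivity
    refine ⟨⌈(X 0 β - q) / (2 * Real.pi)⌉, ?_, ?_⟩
    · have := Int.le_ceil ((X 0 β - q) / (2 * Real.pi))
      rw [div_le_iff₀ hπ] at this
      linarith
    · have := (Int.ceil_lt_add_one ((X 0 β - q) / (2 * Real.pi))).le
      have h2 : (⌈(X 0 β - q) / (2 * Real.pi)⌉ : ℝ) * (2 * Real.pi) ≤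
          ((X 0 β - q) / (2 * Real.pi) + 1) * (2 * Real.pi) :=
        mul_le_mul_of_nonneg_right this hπ.le
      rw [add_mul, div_mul_cancel₀ _ hπ.ne', one_mul] at h2
      linarith
  have hivt := intermediate_value_Icc hs.le (hcont.continuousOn (s := Icc 0 s₀))
  obtain ⟨s, hs', hsx⟩ := hivt ⟨hk1, hk2.trans hrot⟩
  exact ⟨s, hs', X s, k, hXα s, hsx, hX s⟩

end Pool.Agent.Helper41.CanardODE
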