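import Pool.Agent.Helper41.CanardBasic
import Pool.Agent.Helper41.CanardODE

set_option autoImplicit false

/-!
# The reduced equation `dx/dy = f / (ε g)`
-/

namespace Pool.Agent.Helper41.Canard

open Set Filter Topology
open scoped ContDiff NNReal
open Pool.Agent.Helper41.CanardODE

/-- `φ = f / g` at the parameter `ε`, as a function of the time `y` and the state `x`. -/
noncomputable def SlowFast.phi (F : SlowFast) (ε y x : ℝ) : ℝ := F.f (x, y, ε) / F.g (x, y, ε)

lemma phi_perx (F : SlowFast) (ε y x : ℝ) : F.phi ε y (x + 2 * Real.pi) = F.phi ε y x := by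
  simp only [SlowFast.phi, F.f_perx, F.g_perx]

lemma phi_pery (F : SlowFast) (ε y x : ℝ) : F.phi ε (y + 2 * Real.pi) x = F.phi ε y x := by
  simp only [SlowFast.phi, F.f_pery, F.g_pery]

lemma phi_bounds (F : SlowFast) : ∃ B : ℝ, 0 ≤ B ∧ ∀ ε ∈ Icc (0 : ℝ) 1,
    (∀ y x, |F.phi ε y x| ≤ B) ∧
    (∀ y x x', |F.phi ε y x - F.phi ε y x'| ≤ B * |x - x'|) ∧
    (∀ y y' x, |F.phi ε y x - F.phi ε y' x| ≤ B * |y - y'|) := by
  set φ : ℝ × ℝ × ℝ → ℝ := fun p => F.f p / F.g p with hφ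
  have hsm : ∀ p : ℝ × ℝ × ℝ, 0 ≤ p.2.2 → ContDiffAt ℝ ∞ φ p := by
    intro p hp
    refine F.smooth_f.contDiffAt.div F.smooth_g.contDiffAt ?_
    exact (F.g_pos p.1 p.2.1 p.2.2 hp).ne'
  set K : Set (ℝ × ℝ × ℝ) := Icc 0 (2 * Real.pi) ×ˢ (Icc 0 (2 * Real.pi) ×ˢ Icc (0 : ℝ) 1) with hK
  have hKc : IsCompact K := isCompact_Icc.prod (isCompact_Icc.prod isCompact_Icc)
  have hc1 : ContinuousOn φ K := fun p hp =>
    (hsm p hp.2.2.1).continuousAt.continuousWithinAt
  have hc2 : ContinuousOn (fderiv ℝ φ) K := fun p hp =>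
    ((hsm p hp.2.2.1).fderiv_right (m := 1) (by norm_cast)).continuousAt.continuousWithinAt
  obtain ⟨B1, hB1⟩ := hKc.exists_bound_of_continuousOn hc1
  obtain ⟨B2, hB2⟩ := hKc.exists_bound_of_continuousOn hc2
  have hπ : (0 : ℝ) < 2 * Real.pi := by positivity
  have perx : ∀ p : ℝ × ℝ × ℝ, φ (p + (2 * Real.pi, 0, 0)) = φ p := by
    rintro ⟨x, y, e⟩
    simp only [hφ, Prod.mk_add_mk, add_zero, F.f_perx, F.g_perx]
  have pery : ∀ p : ℝ × ℝ × ℝ, φ (p + (0, 2 * Real.pi, 0)) = φ p := by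
    rintro ⟨x, y, e⟩
    simp only [hφ, Prod.mk_add_mk, add_zero, F.f_pery, F.g_pery]
  have dperx : ∀ p : ℝ × ℝ × ℝ, fderiv ℝ φ (p + (2 * Real.pi, 0, 0)) = fderiv ℝ φ p := by
    intro p
    rw [← fderiv_comp_add_right]
    congr 1
    funext q
    exact perx q
  have dpery : ∀ p : ℝ × ℝ × ℝ, fderiv ℝ φ (p + (0, 2 * Real.pi, 0)) = fderiv ℝ φ p := by
    intro p
    rw [← fderiv_comp_add_right]
    congr 1
    funext q
    exact pery q
  -- reduction to the fundamental domain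
  have red : ∀ x y e : ℝ, e ∈ Icc (0 : ℝ) 1 → ∃ p ∈ K, φ (x, y, e) = φ p ∧
      fderiv ℝ φ (x, y, e) = fderiv ℝ φ p := by
    intro x y e he
    have h1 : Function.Periodic (fun x => (φ (x, y, e), fderiv ℝ φ (x, y, e))) (2 * Real.pi) := by
      intro x
      have a1 := perx (x, y, e)
      have a2 := dperx (x, y, e)
      simp only [Prod.mk_add_mk, add_zero] at a1 a2
      simp only [a1, a2]
    obtain ⟨x', hx', hx''⟩ := h1.exists_mem_Ico₀ hπ x
    have h2 : Function.Periodic (fun y => (φ (x', y, e), fderiv ℝ φ (x', y, e))) (2 * Real.pi) := by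
      intro y
      have a1 := pery (x', y, e)
      have a2 := dpery (x', y, e)
      simp only [Prod.mk_add_mk, add_zero] at a1 a2
      simp only [a1, a2]
    obtain ⟨y', hy', hy''⟩ := h2.exists_mem_Ico₀ hπ y
    simp only [Prod.mk.injEq] at hx'' hy''
    exact ⟨(x', y', e), ⟨⟨hx'.1, hx'.2.le⟩, ⟨hy'.1, hy'.2.le⟩, he⟩,
      hx''.1.trans hy''.1, hx''.2.trans hy''.2⟩
  have hBB : 0 ≤ max B1 B2 := by
    have : (0, 0, 0) ∈ K := ⟨⟨le_rfl, hπ.le⟩, ⟨le_rfl, hπ.le⟩, ⟨le_rfl, zero_le_one⟩⟩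
    exact (norm_nonneg _).trans ((hB1 _ this).trans (le_max_left _ _))
  have bd1 : ∀ x y e : ℝ, e ∈ Icc (0 : ℝ) 1 → |φ (x, y, e)| ≤ max B1 B2 := by
    intro x y e he
    obtain ⟨p, hp, h1, -⟩ := red x y e he
    rw [h1]
    exact (hB1 p hp).trans (le_max_left _ _)
  have bd2 : ∀ x y e : ℝ, e ∈ Icc (0 : ℝ) 1 → ‖fderiv ℝ φ (x, y, e)‖ ≤ max B1 B2 := by
    intro x y e he
    obtain ⟨p, hp, -, h1⟩ := red x y e he
    rw [h1]
    exact (hB2 p hp).trans (le_max_right _ _)
  refine ⟨max B1 B2, hBB, fun ε hε => ⟨fun y x => bd1 x y ε hε, fun y x x' => ?_, fun y y' x => ?_⟩⟩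
  · have hd : ∀ z : ℝ, HasDerivAt (fun z => φ (z, y, ε)) (fderiv ℝ φ (z, y, ε) (1, 0, 0)) z := by
      intro z
      have h1 := (hasDerivAt_id' z).prodMk ((hasDerivAt_const z y).prodMk (hasDerivAt_const z ε))
      exact (((hsm (z, y, ε) hε.1).differentiableAt (by simp)).hasFDerivAt).comp_hasDerivAt z h1
    have := Convex.norm_image_sub_le_of_norm_hasDerivWithin_le (s := univ) (C := max B1 B2)
      (f := fun z => φ (z, y, ε)) (f' := fun z => fderiv ℝ φ (z, y, ε) (1, 0, 0))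
      (fun z _ => (hd z).hasDerivWithinAt) (fun z _ => by
        refine ((fderiv ℝ φ (z, y, ε)).le_opNorm _).trans ?_
        have : ‖((1 : ℝ), (0 : ℝ), (0 : ℝ))‖ = 1 := by simp [Prod.norm_def]
        rw [this, mul_one]
        exact bd2 z y ε hε) convex_univ (mem_univ x') (mem_univ x)
    exact this
  · have hd : ∀ z : ℝ, HasDerivAt (fun z => φ (x, z, ε)) (fderiv ℝ φ (x, z, ε) (0, 1, 0)) z := by
      intro z
      have h1 := (hasDerivAt_const z x).prodMk ((hasDerivAt_id' z).prodMk (hasDerivAt_const z ε))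
      exact (((hsm (x, z, ε) hε.1).differentiableAt (by simp)).hasFDerivAt).comp_hasDerivAt z h1
    have := Convex.norm_image_sub_le_of_norm_hasDerivWithin_le (s := univ) (C := max B1 B2)
      (f := fun z => φ (x, z, ε)) (f' := fun z => fderiv ℝ φ (x, z, ε) (0, 1, 0))
      (fun z _ => (hd z).hasDerivWithinAt) (fun z _ => by
        refine ((fderiv ℝ φ (x, z, ε)).le_opNorm _).trans ?_
        have : ‖((0 : ℝ), (1 : ℝ), (0 : ℝ))‖ = 1 := by simp [Prod.norm_def]
        rw [this, mul_one]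
        exact bd2 x z ε hε) convex_univ (mem_univ y') (mem_univ y)
    exact this

/-- The reduced equation, on the interval `[α, β]`. -/
def Solves (F : SlowFast) (ε α β : ℝ) (x : ℝ → ℝ) : Prop :=
  ∀ y ∈ Icc α β, HasDerivWithinAt x (F.phi ε y (x y) / ε) (Icc α β) y

lemma exists_solves (F : SlowFast) {ε α β : ℝ} (hε : 0 < ε) (hε1 : ε ≤ 1) (hαβ : α ≤ β) (p : ℝ) :
    ∃ x : ℝ → ℝ, x α = p ∧ Solves F ε α β x := by
  obtain ⟨B, hB, hBB⟩ := phi_bounds F
  obtain ⟨b1, b2, b3⟩ := hBB ε ⟨hε.le, hε1⟩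
  refine exists_sol (v := fun y x => F.phi ε y x / ε) hαβ (K := ⟨B / ε, by positivity⟩)
    (L := ⟨B / ε, by positivity⟩) ?_ ?_ ?_ p
  · intro y _ x
    rw [abs_div, abs_of_pos hε]
    exact div_le_div_of_nonneg_right (b1 y x) hε.le
  · intro y _
    refine LipschitzWith.of_dist_le_mul (fun x x' => ?_)
    rw [Real.dist_eq, Real.dist_eq]
    change _ ≤ B / ε * _
    rw [← sub_div, abs_div, abs_of_pos hε, div_mul_eq_mul_div]
    exact div_le_div_of_nonneg_right (b2 y x x') hε.le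
  · intro x
    have h1 : ContinuousOn (fun y => F.phi ε y x) (Icc α β) := by
      have : LipschitzOnWith ⟨B, hB⟩ (fun y => F.phi ε y x) (Icc α β) := by
        refine LipschitzOnWith.of_dist_le_mul (fun t _ t' _ => ?_)
        rw [Real.dist_eq, Real.dist_eq]
        exact b3 t t' x
      exact this.continuousOn
    exact h1.div_const _

/-- Starting from `p` at `y = α`, the orbit reaches the level `y = β` in the open arc `(u, v)` (mod
`2π`). -/
def Reach (F : SlowFast) (ε α β p u v : ℝ) : Prop :=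
  ∃ (x : ℝ → ℝ) (k : ℤ), x α = p ∧ Solves F ε α β x ∧ x β + 2 * Real.pi * k ∈ Ioo u v

/-- `Reach` is an open condition. -/
lemma isOpen_reach {α β p u v : ℝ} (hαβ : α ≤ β) :
    IsOpen {q : SlowFast × ℝ | (0 < q.2 ∧ q.2 < 1) ∧ Reach q.1 q.2 α β p u v} := by
  rw [isOpen_iff_mem_nhds]
  rintro ⟨F, ε⟩ ⟨⟨hε, hε1⟩, x, k, hxα, hx, hxβ⟩
  simp only at hε hε1 hxα hx hxβ
  obtain ⟨B, hB, hBB⟩ := phi_bounds F
  obtain ⟨b1, b2, b3⟩ := hBB ε ⟨hε.le, hε1.le⟩
  -- tolerance
  obtain ⟨ρ, hρ, hρ'⟩ : ∃ ρ > 0, ∀ z, |z| < ρ → x β + 2 * Real.pi * k + z ∈ Ioo u v := by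
    refine ⟨min (x β + 2 * Real.pi * k - u) (v - (x β + 2 * Real.pi * k)),
      lt_min (sub_pos.2 hxβ.1) (sub_pos.2 hxβ.2), fun z hz => ?_⟩
    rw [lt_min_iff] at hz
    have h1 := (abs_lt.1 hz.1).1
    have h2 := (abs_lt.1 hz.2).2
    constructor <;> linarith
  obtain ⟨η, hη, hη'⟩ : ∃ η > 0,
      gronwallBound 0 (⟨B / ε, by positivity⟩ : ℝ≥0) η (β - α) < ρ := by
    have h1 : Continuous (fun r : ℝ => gronwallBound 0 (⟨B / ε, by positivity⟩ : ℝ≥0) r
        (β - α)) := gronwallBound_continuous_ε _ _ _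
    have h2 := (h1.tendsto 0).eventually_lt_const (u := ρ) (by rw [gronwallBound_ε0_δ0]; exact hρ)
    have h3 : ∀ᶠ r in 𝓝[>] (0 : ℝ), gronwallBound 0 (⟨B / ε, by positivity⟩ : ℝ≥0) r (β - α) < ρ :=
      nhdsWithin_le_nhds h2
    obtain ⟨η, h4, h5⟩ := (h3.and self_mem_nhdsWithin).exists
    exact ⟨η, h5, h4⟩
  -- the vector field is close
  have hclose : ∀ᶠ q : SlowFast × ℝ in 𝓝 (F, ε), ∀ z ∈ Icc 0 (2 * Real.pi) ×ˢ Icc α β,
      |q.1.phi q.2 z.2 z.1 / q.2 - F.phi ε z.2 z.1 / ε| < η := by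
    refine (isCompact_Icc.prod isCompact_Icc).eventually_forall_of_forall_eventually
      (fun z hz => ?_)
    have hcont : ContinuousAt (fun w : (SlowFast × ℝ) × (ℝ × ℝ) =>
        |w.1.1.phi w.1.2 w.2.2 w.2.1 / w.1.2 - F.phi ε w.2.2 w.2.1 / ε|) ((F, ε), z) := by
      have c1 : ContinuousAt (fun w : (SlowFast × ℝ) × (ℝ × ℝ) =>
          w.1.1.phi w.1.2 w.2.2 w.2.1) ((F, ε), z) := by
        have d1 : Continuous (fun w : (SlowFast × ℝ) × (ℝ × ℝ) =>
            w.1.1.f (w.2.1, w.2.2, w.1.2)) :=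
          continuous_f.comp (f := fun w : (SlowFast × ℝ) × (ℝ × ℝ) =>
            (w.1.1, (w.2.1, w.2.2, w.1.2))) (by fun_prop)
        have d2 : Continuous (fun w : (SlowFast × ℝ) × (ℝ × ℝ) =>
            w.1.1.g (w.2.1, w.2.2, w.1.2)) :=
          continuous_g.comp (f := fun w : (SlowFast × ℝ) × (ℝ × ℝ) =>
            (w.1.1, (w.2.1, w.2.2, w.1.2))) (by fun_prop)
        exact d1.continuousAt.div d2.continuousAt (F.g_pos _ _ _ hε.le).ne'
      have c2 : ContinuousAt (fun w : (SlowFast × ℝ) × (ℝ × ℝ) => F.phi ε w.2.2 w.2.1)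
          ((F, ε), z) := by
        have d1 : Continuous (fun w : (SlowFast × ℝ) × (ℝ × ℝ) => F.f (w.2.1, w.2.2, ε)) :=
          F.smooth_f.continuous.comp (by fun_prop)
        have d2 : Continuous (fun w : (SlowFast × ℝ) × (ℝ × ℝ) => F.g (w.2.1, w.2.2, ε)) :=
          F.smooth_g.continuous.comp (by fun_prop)
        exact d1.continuousAt.div d2.continuousAt (F.g_pos _ _ _ hε.le).ne'
      have c3 : ContinuousAt (fun w : (SlowFast × ℝ) × (ℝ × ℝ) => w.1.2) ((F, ε), z) := by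
        fun_prop
      exact ((c1.div c3 hε.ne').sub (c2.div_const _)).abs
    have h0 : |F.phi ε z.2 z.1 / ε - F.phi ε z.2 z.1 / ε| < η := by simpa using hη
    exact hcont.tendsto.eventually (gt_mem_nhds h0)
  have hpos : ∀ᶠ q : SlowFast × ℝ in 𝓝 (F, ε), 0 < q.2 ∧ q.2 < 1 := by
    have h1 : ContinuousAt (fun q : SlowFast × ℝ => q.2) (F, ε) := continuous_snd.continuousAt
    exact (h1.eventually (lt_mem_nhds hε)).and (h1.eventually (gt_mem_nhds hε1))
  filter_upwards [hclose, hpos] with q hq hq0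
  refine ⟨hq0, ?_⟩
  obtain ⟨x', hx'α, hx'⟩ := exists_solves q.1 hq0.1 hq0.2.le hαβ p
  refine ⟨x', k, hx'α, hx', ?_⟩
  have h1 := close_sol (v₁ := fun y x => F.phi ε y x / ε) (v₂ := fun y x => q.1.phi q.2 y x / q.2)
    hαβ (K := ⟨B / ε, by positivity⟩) (η := η)
    (by
      intro y _
      refine LipschitzWith.of_dist_le_mul (fun x x' => ?_)
      rw [Real.dist_eq, Real.dist_eq]
      change _ ≤ B / ε * _
      rw [← sub_div, abs_div, abs_of_pos hε, div_mul_eq_mul_div]
      exact div_le_div_of_nonneg_right (b2 y x x') hε.le)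
    (by
      intro y hy z
      have hper : Function.Periodic (fun z => q.1.phi q.2 y z / q.2 - F.phi ε y z / ε)
          (2 * Real.pi) := by
        intro z
        simp only [phi_perx]
      obtain ⟨z', hz', hz''⟩ := hper.exists_mem_Ico₀ (by positivity) z
      rw [hz'']
      exact (hq (z', y) ⟨⟨hz'.1, hz'.2.le⟩, hy⟩).le)
    hx hx' (hxα.trans hx'α.symm)
  have h2 : x β + 2 * Real.pi * k + (x' β - x β) ∈ Ioo u v := by
    refine hρ' _ ?_
    rw [abs_sub_comm]
    exact h1.trans_lt hη'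
  have h3 : x β + 2 * Real.pi * k + (x' β - x β) = x' β + 2 * Real.pi * k := by ring
  rwa [h3] at h2

/-- A solution of the reduced equation gives an orbit of the system. -/
lemma grandCanard_of_solves (F : SlowFast) {ε : ℝ} (hε : 0 < ε) {J J' : Segment} {β : ℝ}
    (hlt : J.level < β) (hβ : β < J.level + 2 * Real.pi) (hβJ : (β : Circ) = (J'.level : Circ))
    {x : ℝ → ℝ} (hx : Solves F ε J.level β x) (h0 : x J.level ∈ Icc J.left J.right)
    {k : ℤ} (h1 : x β + 2 * Real.pi * k ∈ Icc J'.left J'.right) : GrandCanard F J J' ε := by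
  set α : ℝ := J.level with hα
  -- the speed of `y`
  set pr : ℝ → ℝ := fun y => (projIcc α β hlt.le y : ℝ) with hpr
  have hprc : Continuous pr := continuous_subtype_val.comp continuous_projIcc
  have hprmem : ∀ y, pr y ∈ Icc α β := fun y => (projIcc α β hlt.le y).2
  have hpreq : ∀ y ∈ Icc α β, pr y = y := fun y hy => by
    simp only [hpr, projIcc_of_mem hlt.le hy]
  have hxc : ContinuousOn x (Icc α β) := fun y hy => (hx y hy).continuousWithinAt
  have hxpc : Continuous (fun y => x (pr y)) := hxc.comp_continuous hprc hprmem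
  set G : ℝ → ℝ := fun y => (ε * F.g (x (pr y), pr y, ε))⁻¹ with hG
  have hGpos : ∀ y, 0 < G y := fun y => by
    have := F.g_pos (x (pr y)) (pr y) ε hε.le
    positivity
  have hGc : Continuous G := by
    have h2 : Continuous (fun y => ε * F.g (x (pr y), pr y, ε)) :=
      continuous_const.mul (F.smooth_g.continuous.comp
        (hxpc.prodMk (hprc.prodMk continuous_const)))
    refine h2.inv₀ (fun y => ?_)
    have := F.g_pos (x (pr y)) (pr y) ε hε.le
    positivity
  -- lower bound for `G`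
  obtain ⟨c, hc, hcG⟩ : ∃ c > 0, ∀ y, c ≤ G y := by
    obtain ⟨y0, -, hy0⟩ := (isCompact_Icc (a := α) (b := β)).exists_isMinOn
      (nonempty_Icc.2 hlt.le) hGc.continuousOn
    refine ⟨G y0, hGpos y0, fun y => ?_⟩
    have h3 : G y = G (pr y) := by
      simp only [hG, hpreq (pr y) (hprmem y)]
    rw [h3]
    exact hy0 (hprmem y)
  -- the time
  set τ : ℝ → ℝ := fun y => ∫ z in α..y, G z with hτ
  have hτd : ∀ y, HasDerivAt τ (G y) y := fun y => by
    exact intervalIntegral.integral_hasDerivAt_right (hGc.intervalIntegrable _ _)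
      hGc.stronglyMeasurable.stronglyMeasurableAtFilter hGc.continuousAt
  have hτα : τ α = 0 := by simp [hτ]
  have hτmono : StrictMono τ := strictMono_of_deriv_pos (fun y => by
    rw [(hτd y).deriv]
    exact hGpos y)
  have hτc : Continuous τ := continuous_iff_continuousAt.2 (fun y => (hτd y).continuousAt)
  have hgrow : Monotone (fun y => τ y - c * y) := by
    refine monotone_of_deriv_nonneg (fun y => ((hτd y).sub ((hasDerivAt_id y).const_mul c)).differentiableAt) (fun y => ?_)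
    have : HasDerivAt (fun y => τ y - c * y) (G y - c * 1) y :=
      (hτd y).sub ((hasDerivAt_id' y).const_mul c)
    rw [this.deriv]
    linarith [hcG y]
  have hτsurj : Function.Surjective τ := by
    refine hτc.surjective ?_ ?_
    · have h3 : ∀ᶠ y in atTop, c * y + (τ 0) ≤ τ y := by
        filter_upwards [eventually_ge_atTop (0 : ℝ)] with y hy
        have := hgrow hy
        simp only [mul_zero, sub_zero] at this
        linarith
      exact tendsto_atTop_mono' _ h3 (tendsto_atTop_add_const_right _ _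
        (tendsto_id.const_mul_atTop hc))
    · have h3 : ∀ᶠ y in atBot, τ y ≤ c * y + (τ 0) := by
        filter_upwards [eventually_le_atBot (0 : ℝ)] with y hy
        have := hgrow hy
        simp only [mul_zero, sub_zero] at this
        linarith
      exact tendsto_atBot_mono' _ h3 (tendsto_atBot_add_const_right _ _
        (tendsto_id.const_mul_atBot hc))
  -- the inverse
  set Φ : ℝ ≃o ℝ := hτmono.orderIsoOfSurjective τ hτsurj with hΦ
  set Y : ℝ → ℝ := fun t => Φ.symm t with hY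
  have hYτ : ∀ y, Y (τ y) = y := fun y => Φ.symm_apply_apply y
  have hτY : ∀ t, τ (Y t) = t := fun t => Φ.apply_symm_apply t
  have hYc : Continuous Y := Φ.symm.continuous
  have hYmono : StrictMono Y := Φ.symm.strictMono
  have hYd : ∀ t, HasDerivAt Y (G (Y t))⁻¹ t := fun t =>
    HasDerivAt.of_local_left_inverse hYc.continuousAt (hτd (Y t)) (hGpos _).ne'
      (Eventually.of_forall hτY)
  set T : ℝ := τ β with hT
  have hT0 : 0 < T := by
    rw [← hτα]
    exact hτmono hlt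
  have hY0 : Y 0 = α := by rw [← hτα, hYτ]
  have hYT : Y T = β := hYτ β
  have hmaps : MapsTo Y (Icc 0 T) (Icc α β) := fun t ht =>
    ⟨by rw [← hY0]; exact hYmono.monotone ht.1, by rw [← hYT]; exact hYmono.monotone ht.2⟩
  have hspeed : ∀ t ∈ Icc 0 T, (G (Y t))⁻¹ = ε * F.g (x (Y t), Y t, ε) := by
    intro t ht
    simp only [hG, hpreq (Y t) (hmaps ht), inv_inv]
  refine ⟨T, fun t => x (Y t), Y, hT0, ?_, ?_, hY0, ?_, ?_, ?_, k, ?_⟩
  · intro t ht
    have h3 := (hx (Y t) (hmaps ht)).comp t ((hYd t).hasDerivWithinAt) hmaps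
    rw [hspeed t ht] at h3
    have h4 := F.g_pos (x (Y t)) (Y t) ε hε.le
    have h5 : F.phi ε (Y t) (x (Y t)) / ε * (ε * F.g (x (Y t), Y t, ε)) =
        F.f (x (Y t), Y t, ε) := by
      simp only [SlowFast.phi]
      field_simp
    rw [h5] at h3
    exact h3
  · intro t ht
    rw [← hspeed t ht]
    exact (hYd t).hasDerivWithinAt
  · change x (Y 0) ∈ _
    rw [hY0]
    exact h0
  · intro t ht hEq
    rw [← hβJ] at hEq
    have h3 : ((Y t - β : ℝ) : Circ) = 0 := by
      rw [AddCircle.coe_sub, hEq, sub_self]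
    rw [AddCircle.coe_eq_zero_iff] at h3
    obtain ⟨n, hn⟩ := h3
    have h4 : Y t < β := by rw [← hYT]; exact hYmono ht.2
    have h5 : α < Y t := by rw [← hY0]; exact hYmono ht.1
    rw [zsmul_eq_mul] at hn
    have hπ : (0 : ℝ) < 2 * Real.pi := by positivity
    have h6 : (n : ℝ) * (2 * Real.pi) < 0 := by linarith
    have h7 : (-1 : ℝ) * (2 * Real.pi) < (n : ℝ) * (2 * Real.pi) := by linarith
    have h8 : (n : ℝ) < 0 := by
      by_contra hcon
      have := mul_nonneg (not_lt.1 hcon) hπ.le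
      linarith
    have h9 : (-1 : ℝ) < n := lt_of_mul_lt_mul_right h7 hπ.le
    have h10 : n < 0 := by exact_mod_cast h8
    have h11 : -1 < n := by exact_mod_cast h9
    omega
  · rw [hYT]
    exact hβJ
  · change x (Y T) + _ ∈ _
    rw [hYT]
    exact h1

end Pool.Agent.Helper41.Canard
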