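import Pool.Agent.Helper41.CanardFlow

set_option autoImplicit false

/-!
# Density and genericity of coexisting grand canards
-/

namespace Pool.Agent.Helper41.Canard

open Set Filter Topology
open scoped ContDiff NNReal
open Pool.Agent.Helper41.CanardODE

/-- A smooth `2π`-periodic bump around `0`. -/
noncomputable def bump (y : ℝ) : ℝ := Real.smoothTransition (10 * Real.cos y - 8)

lemma bump_smooth : ContDiff ℝ ∞ bump := by
  have h1 : ContDiff ℝ ∞ (fun y : ℝ => 10 * Real.cos y - 8) :=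
    (contDiff_const.mul Real.contDiff_cos).sub contDiff_const
  exact Real.smoothTransition.contDiff.comp h1

lemma bump_per (y : ℝ) : bump (y + 2 * Real.pi) = bump y := by
  simp only [bump, Real.cos_add_two_pi]

lemma bump_nonneg (y : ℝ) : 0 ≤ bump y := Real.smoothTransition.nonneg _

lemma bump_le_one (y : ℝ) : bump y ≤ 1 := Real.smoothTransition.le_one _

lemma bump_eq_one {y : ℝ} (h : |y| ≤ 2 / 5) : 1 ≤ bump y := by
  have h1 : 1 - y ^ 2 / 2 ≤ Real.cos y := Real.one_sub_sq_div_two_le_cos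
  have h2 : y ^ 2 ≤ 4 / 25 := by
    rw [abs_le] at h
    nlinarith [h.1, h.2]
  rw [bump, Real.smoothTransition.one_of_one_le (by linarith)]

lemma cos_le_of_mem {y : ℝ} (h1 : Real.pi / 4 ≤ y) (h2 : y ≤ 7 * Real.pi / 4) :
    Real.cos y ≤ 4 / 5 := by
  have hs : Real.sqrt 2 ≤ 3 / 2 := by
    rw [Real.sqrt_le_left (by norm_num)]
    norm_num
  have hc : Real.cos (Real.pi / 4) ≤ 4 / 5 := by
    rw [Real.cos_pi_div_four]
    linarith
  rcases le_total y Real.pi with h | h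
  · refine le_trans ?_ hc
    exact Real.cos_le_cos_of_nonneg_of_le_pi (by positivity) h h1
  · refine le_trans ?_ hc
    rw [← Real.cos_two_pi_sub]
    exact Real.cos_le_cos_of_nonneg_of_le_pi (by positivity) (by linarith) (by linarith)

lemma bump_eq_zero {y : ℝ} (h1 : Real.pi / 4 ≤ y) (h2 : y ≤ 7 * Real.pi / 4) : bump y = 0 := by
  have := cos_le_of_mem h1 h2
  rw [bump, Real.smoothTransition.zero_of_nonpos (by linarith)]

/-- The bump around `π`. -/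
noncomputable def bump' (y : ℝ) : ℝ := bump (y - Real.pi)

lemma bump'_smooth : ContDiff ℝ ∞ bump' := bump_smooth.comp (contDiff_id.sub contDiff_const)

lemma bump'_per (y : ℝ) : bump' (y + 2 * Real.pi) = bump' y := by
  rw [bump', bump', ← bump_per (y - Real.pi)]
  congr 1
  ring

/-- The two-parameter family of perturbations. -/
noncomputable def pert (F : SlowFast) (q : ℝ × ℝ) : SlowFast :=
  perturb F bump' bump bump'_smooth bump_smooth bump'_per bump_per q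

lemma pert_zero (F : SlowFast) : pert F (0, 0) = F :=
  perturb_zero F bump' bump bump'_smooth bump_smooth bump'_per bump_per

lemma continuous_pert (F : SlowFast) : Continuous (pert F) :=
  continuous_perturb F bump' bump bump'_smooth bump_smooth bump'_per bump_per

lemma pert_phi (F : SlowFast) (s s' : ℝ) {ε : ℝ} (hε : 0 ≤ ε) (y x : ℝ) :
    (pert F (s, s')).phi ε y x = F.phi ε y x + (s * bump' y + s' * bump y) := by
  have := (F.g_pos x y ε hε).ne'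
  simp only [SlowFast.phi, pert, perturb, smul_eq_mul]
  field_simp

/-- Lower bound of `φ` on a window where `f > 0` at `ε = 0`. -/
lemma window_pos (F : SlowFast) {c d : ℝ} (hcd : c ≤ d)
    (hpos : ∀ y ∈ Icc c d, ∀ x, 0 < F.f (x, y, 0)) :
    ∃ m > 0, ∀ᶠ ε in 𝓝 (0 : ℝ), ∀ y ∈ Icc c d, ∀ x, m ≤ F.phi ε y x := by
  set K : Set (ℝ × ℝ) := Icc 0 (2 * Real.pi) ×ˢ Icc c d with hK
  have hKc : IsCompact K := isCompact_Icc.prod isCompact_Icc
  have hKn : K.Nonempty := ⟨(0, c), ⟨⟨le_rfl, by positivity⟩, ⟨le_rfl, hcd⟩⟩⟩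
  have hcont : ∀ z : ℝ × ℝ, ContinuousAt (fun w : ℝ × (ℝ × ℝ) => F.phi w.1 w.2.2 w.2.1) (0, z) := by
    intro z
    have d1 : Continuous (fun w : ℝ × (ℝ × ℝ) => F.f (w.2.1, w.2.2, w.1)) :=
      F.smooth_f.continuous.comp (by fun_prop)
    have d2 : Continuous (fun w : ℝ × (ℝ × ℝ) => F.g (w.2.1, w.2.2, w.1)) :=
      F.smooth_g.continuous.comp (by fun_prop)
    exact d1.continuousAt.div d2.continuousAt (F.g_pos _ _ _ le_rfl).ne'
  have hcont0 : ContinuousOn (fun z : ℝ × ℝ => F.phi 0 z.2 z.1) K := by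
    intro z _
    have := (hcont z).comp (f := fun z : ℝ × ℝ => ((0 : ℝ), z)) (x := z) (by fun_prop)
    exact this.continuousWithinAt
  obtain ⟨z0, hz0, hmin⟩ := hKc.exists_isMinOn hKn hcont0
  have hm0 : 0 < F.phi 0 z0.2 z0.1 := div_pos (hpos _ hz0.2 _) (F.g_pos _ _ _ le_rfl)
  refine ⟨F.phi 0 z0.2 z0.1 / 2, half_pos hm0, ?_⟩
  have h1 : ∀ᶠ ε in 𝓝 (0 : ℝ), ∀ z ∈ K, F.phi 0 z0.2 z0.1 / 2 < F.phi ε z.2 z.1 := by
    refine hKc.eventually_forall_of_forall_eventually (fun z hz => ?_)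
    have h2 : F.phi 0 z0.2 z0.1 / 2 < F.phi 0 z.2 z.1 := by
      have : F.phi 0 z0.2 z0.1 ≤ F.phi 0 z.2 z.1 := hmin hz
      linarith
    exact (hcont z).tendsto.eventually (lt_mem_nhds h2)
  filter_upwards [h1] with ε hε y hy x
  have hper : Function.Periodic (fun x => F.phi ε y x) (2 * Real.pi) := fun x => phi_perx F ε y x
  obtain ⟨x', hx', hx''⟩ := hper.exists_mem_Ico₀ (by positivity) x
  rw [hx'']
  exact (hε (x', y) ⟨⟨hx'.1, hx'.2.le⟩, hy⟩).le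

/-- Density: arbitrarily close to `F`, and for some arbitrarily small `ε`, both orbits exist. -/
lemma dense_step (F : SlowFast)
    (hw₀ : ∀ y ∈ Icc (Real.pi - 2 / 5) (Real.pi + 2 / 5), ∀ x, 0 < F.f (x, y, 0))
    (hw₁ : ∀ y ∈ Icc (2 * Real.pi - 2 / 5) (2 * Real.pi + 2 / 5), ∀ x, 0 < F.f (x, y, 0))
    {W : Set SlowFast} (hW : W ∈ 𝓝 F) {α₀ β₀ α₁ β₁ p₀ p₁ u₀ v₀ u₁ v₁ θ : ℝ} (hθ : 0 < θ)
    (huv₀ : u₀ < v₀) (huv₁ : u₁ < v₁)
    (a1 : Real.pi / 4 ≤ α₀) (a2 : α₀ ≤ Real.pi - 2 / 5)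
    (a3 : Real.pi + 2 / 5 ≤ β₀) (a4 : β₀ ≤ 7 * Real.pi / 4)
    (b1 : 5 * Real.pi / 4 ≤ α₁) (b2 : α₁ ≤ 2 * Real.pi - 2 / 5)
    (b3 : 2 * Real.pi + 2 / 5 ≤ β₁) (b4 : β₁ ≤ 11 * Real.pi / 4) :
    ∃ F' ∈ W, ∃ ε, 0 < ε ∧ ε < θ ∧ ε < 1 ∧ Reach F' ε α₀ β₀ p₀ u₀ v₀ ∧
      Reach F' ε α₁ β₁ p₁ u₁ v₁ := by
  -- the size of the perturbation
  have hW' : ∀ᶠ q : ℝ × ℝ in 𝓝 (0, 0), pert F q ∈ W := by
    have h1 := (continuous_pert F).tendsto (0, 0)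
    rw [pert_zero] at h1
    exact h1 hW
  rw [nhds_prod_eq, eventually_prod_iff] at hW'
  obtain ⟨P, hP, Q, hQ, hPQ⟩ := hW'
  obtain ⟨r1, hr1, hP'⟩ := Metric.eventually_nhds_iff.1 hP
  obtain ⟨r2, hr2, hQ'⟩ := Metric.eventually_nhds_iff.1 hQ
  obtain ⟨s₀, hs₀, hs1, hsr1, hsr2⟩ : ∃ s₀ : ℝ, 0 < s₀ ∧ s₀ ≤ 1 ∧ s₀ < r1 ∧ s₀ < r2 := by
    refine ⟨min 1 (min (r1 / 2) (r2 / 2)), by positivity, min_le_left _ _, ?_, ?_⟩
    · exact ((min_le_right _ _).trans (min_le_left _ _)).trans_lt (half_lt_self hr1)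
    · exact ((min_le_right _ _).trans (min_le_right _ _)).trans_lt (half_lt_self hr2)
  obtain ⟨B, hB, hBB⟩ := phi_bounds F
  obtain ⟨m₀, hm₀, hm₀'⟩ := window_pos F (by linarith) hw₀
  obtain ⟨m₁, hm₁, hm₁'⟩ := window_pos F (by linarith) hw₁
  set κ : ℝ := s₀ / (2 * (B + B * (4 / 5) + 1)) * ((4 / 5) / 2) with hκ
  have hκpos : 0 < κ := by positivity
  -- choose `ε`
  have hev : ∀ᶠ ε in 𝓝[>] (0 : ℝ), (0 < ε ∧ ε < θ ∧ ε < 1) ∧
      (ε * (2 * Real.pi) ≤ κ * m₀ ∧ ε * (2 * Real.pi) ≤ κ * m₁) ∧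
      ((∀ y ∈ Icc (Real.pi - 2 / 5) (Real.pi + 2 / 5), ∀ x, m₀ ≤ F.phi ε y x) ∧
      (∀ y ∈ Icc (2 * Real.pi - 2 / 5) (2 * Real.pi + 2 / 5), ∀ x, m₁ ≤ F.phi ε y x)) := by
    have e0 : ∀ᶠ ε in 𝓝[>] (0 : ℝ), 0 < ε := self_mem_nhdsWithin
    have e1 : ∀ᶠ ε in 𝓝[>] (0 : ℝ), ε < θ := nhdsWithin_le_nhds (gt_mem_nhds hθ)
    have e2 : ∀ᶠ ε in 𝓝[>] (0 : ℝ), ε < 1 := nhdsWithin_le_nhds (gt_mem_nhds one_pos)
    have hc : Continuous (fun ε : ℝ => ε * (2 * Real.pi)) := by fun_prop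
    have e3 : ∀ᶠ ε in 𝓝[>] (0 : ℝ), ε * (2 * Real.pi) < κ * m₀ :=
      nhdsWithin_le_nhds ((hc.tendsto 0).eventually_lt_const (u := κ * m₀) (by
        rw [zero_mul]; positivity))
    have e4 : ∀ᶠ ε in 𝓝[>] (0 : ℝ), ε * (2 * Real.pi) < κ * m₁ :=
      nhdsWithin_le_nhds ((hc.tendsto 0).eventually_lt_const (u := κ * m₁) (by
        rw [zero_mul]; positivity))
    have e5 := nhdsWithin_le_nhds (s := Ioi (0 : ℝ)) hm₀'
    have e6 := nhdsWithin_le_nhds (s := Ioi (0 : ℝ)) hm₁'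
    filter_upwards [e0, e1, e2, e3, e4, e5, e6] with ε h0 h1 h2 h3 h4 h5 h6
    exact ⟨⟨h0, h1, h2⟩, ⟨h3.le, h4.le⟩, h5, h6⟩
  obtain ⟨ε, ⟨hε, hεθ, hε1⟩, ⟨hk₀, hk₁⟩, hwin₀, hwin₁⟩ := hev.exists
  obtain ⟨c1, c2, c3⟩ := hBB ε ⟨hε.le, hε1.le⟩
  -- first canard
  obtain ⟨s, hs, x, k, hxα, hxβ, hx⟩ := exists_param (φ := fun y x => F.phi ε y x) (χ := bump')
    (α := α₀) (c := Real.pi - 2 / 5) (d := Real.pi + 2 / 5) (β := β₀) (B := B) (m := m₀)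
    (s₀ := s₀) (ε := ε) a2 (by linarith) a3 hB hm₀ hs₀ hs1 hε
    (fun y _ x => phi_perx F ε y x) (fun y _ => c2 y) (fun y _ y' _ => c3 y y')
    (fun y _ => c1 y) hwin₀ (fun y => bump_nonneg _) (fun y => bump_le_one _)
    bump'_smooth.continuous
    (fun y hy => bump_eq_one (by rw [abs_le]; constructor <;> linarith [hy.1, hy.2]))
    (by
      have : Real.pi + 2 / 5 - (Real.pi - 2 / 5) = 4 / 5 := by ring
      rw [this]
      exact hk₀) p₀ ((u₀ + v₀) / 2)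
  -- second canard
  obtain ⟨s', hs', x', k', hxα', hxβ', hx'⟩ := exists_param (φ := fun y x => F.phi ε y x)
    (χ := bump)
    (α := α₁) (c := 2 * Real.pi - 2 / 5) (d := 2 * Real.pi + 2 / 5) (β := β₁) (B := B) (m := m₁)
    (s₀ := s₀) (ε := ε) b2 (by linarith) b3 hB hm₁ hs₀ hs1 hε
    (fun y _ x => phi_perx F ε y x) (fun y _ => c2 y) (fun y _ y' _ => c3 y y')
    (fun y _ => c1 y) hwin₁ (fun y => bump_nonneg _) (fun y => bump_le_one _)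
    bump_smooth.continuous
    (fun y hy => by
      rw [show y = y - 2 * Real.pi + 2 * Real.pi by ring, bump_per]
      exact bump_eq_one (by rw [abs_le]; constructor <;> linarith [hy.1, hy.2]))
    (by
      have : 2 * Real.pi + 2 / 5 - (2 * Real.pi - 2 / 5) = 4 / 5 := by ring
      rw [this]
      exact hk₁) p₁ ((u₁ + v₁) / 2)
  refine ⟨pert F (s, s'), ?_, ε, hε, hεθ, hε1, ?_, ?_⟩
  · refine hPQ (x := s) ?_ (y := s') ?_
    · refine hP' ?_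
      rw [Real.dist_eq, sub_zero, abs_of_nonneg hs.1]
      exact hs.2.trans_lt hsr1
    · refine hQ' ?_
      rw [Real.dist_eq, sub_zero, abs_of_nonneg hs'.1]
      exact hs'.2.trans_lt hsr2
  · refine ⟨x, -k, hxα, ?_, ?_⟩
    · intro y hy
      have h1 := hx y hy
      have h2 : bump y = 0 := bump_eq_zero (by linarith [hy.1]) (by linarith [hy.2])
      rw [pert_phi F s s' hε.le, h2, mul_zero, add_zero]
      exact h1
    · rw [hxβ]
      push_cast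
      constructor <;> linarith
  · refine ⟨x', -k', hxα', ?_, ?_⟩
    · intro y hy
      have h1 := hx' y hy
      have h2 : bump' y = 0 := by
        rw [bump']
        exact bump_eq_zero (by linarith [hy.1]) (by linarith [hy.2])
      rw [pert_phi F s s' hε.le, h2, mul_zero, zero_add]
      exact h1
    · rw [hxβ']
      push_cast
      constructor <;> linarith

/-- Coexistence of both orbits for arbitrarily small parameters is residual in every open set of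
systems whose fast component is positive over the two windows. -/
theorem residual_coexistence {U : Set SlowFast} (hU : IsOpen U)
    (hw₀ : ∀ F ∈ U, ∀ y ∈ Icc (Real.pi - 2 / 5) (Real.pi + 2 / 5), ∀ x, 0 < F.f (x, y, 0))
    (hw₁ : ∀ F ∈ U, ∀ y ∈ Icc (2 * Real.pi - 2 / 5) (2 * Real.pi + 2 / 5), ∀ x,
      0 < F.f (x, y, 0))
    {α₀ β₀ α₁ β₁ p₀ p₁ u₀ v₀ u₁ v₁ : ℝ}
    (huv₀ : u₀ < v₀) (huv₁ : u₁ < v₁)
    (a1 : Real.pi / 4 ≤ α₀) (a2 : α₀ ≤ Real.pi - 2 / 5)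
    (a3 : Real.pi + 2 / 5 ≤ β₀) (a4 : β₀ ≤ 7 * Real.pi / 4)
    (b1 : 5 * Real.pi / 4 ≤ α₁) (b2 : α₁ ≤ 2 * Real.pi - 2 / 5)
    (b3 : 2 * Real.pi + 2 / 5 ≤ β₁) (b4 : β₁ ≤ 11 * Real.pi / 4) :
    {F : U | ∃ l r : ℕ → ℝ, (∀ n, 0 < l n ∧ l n < r n) ∧ Tendsto r atTop (𝓝 0) ∧
      ∀ n, ∀ ε ∈ Ioo (l n) (r n), 0 < ε ∧ Reach F.1 ε α₀ β₀ p₀ u₀ v₀ ∧
        Reach F.1 ε α₁ β₁ p₁ u₁ v₁} ∈ residual U := by
  -- the open sets
  let S : Set (SlowFast × ℝ) := {q | (0 < q.2 ∧ q.2 < 1) ∧ Reach q.1 q.2 α₀ β₀ p₀ u₀ v₀} ∩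
    {q | (0 < q.2 ∧ q.2 < 1) ∧ Reach q.1 q.2 α₁ β₁ p₁ u₁ v₁}
  have hS : IsOpen S := (isOpen_reach (by linarith)).inter (isOpen_reach (by linarith))
  let O : ℕ → Set U := fun N => {F : U | ∃ ε, (F.1, ε) ∈ S ∧ ε < 1 / ((N : ℝ) + 1)}
  have hO : ∀ N, IsOpen (O N) := by
    intro N
    have h1 : IsOpen (Prod.fst '' (S ∩ {q : SlowFast × ℝ | q.2 < 1 / ((N : ℝ) + 1)})) :=
      isOpenMap_fst _ (hS.inter (isOpen_lt continuous_snd continuous_const))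
    have h2 : O N = Subtype.val ⁻¹' (Prod.fst '' (S ∩ {q : SlowFast × ℝ | q.2 < 1 / ((N : ℝ) + 1)})) := by
      ext F
      constructor
      · rintro ⟨ε, h3, h4⟩
        exact ⟨(F.1, ε), ⟨h3, h4⟩, rfl⟩
      · rintro ⟨⟨F', ε⟩, ⟨h3, h4⟩, h5⟩
        simp only at h5
        subst h5
        exact ⟨ε, h3, h4⟩
    rw [h2]
    exact h1.preimage continuous_subtype_val
  have hD : ∀ N, Dense (O N) := by
    intro N
    rw [dense_iff_inter_open]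
    rintro V hV ⟨F, hF⟩
    obtain ⟨V', hV', rfl⟩ := isOpen_induced_iff.1 hV
    have hW : V' ∩ U ∈ 𝓝 F.1 := (hV'.inter hU).mem_nhds ⟨hF, F.2⟩
    obtain ⟨F', hF', ε, h1, h2, h3, h4, h5⟩ := dense_step F.1 (hw₀ F.1 F.2) (hw₁ F.1 F.2) hW
      (p₀ := p₀) (p₁ := p₁) (θ := 1 / ((N : ℝ) + 1)) (by positivity) huv₀ huv₁ a1 a2 a3 a4 b1 b2 b3 b4
    exact ⟨⟨F', hF'.2⟩, hF'.1, ε, ⟨⟨⟨h1, h3⟩, h4⟩, ⟨⟨h1, h3⟩, h5⟩⟩, h2⟩
  have hres : (⋂ N, O N) ∈ residual U :=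
    countable_iInter_mem.2 (fun N => residual_of_dense_open (hO N) (hD N))
  refine mem_of_superset hres (fun F hF => ?_)
  have key : ∀ N : ℕ, ∃ l r : ℝ, 0 < l ∧ l < r ∧ r ≤ 1 / ((N : ℝ) + 1) ∧
      ∀ ε ∈ Ioo l r, (F.1, ε) ∈ S := by
    intro N
    obtain ⟨ε, h1, h2⟩ := mem_iInter.1 hF N
    have h3 : {e : ℝ | (F.1, e) ∈ S} ∈ 𝓝 ε := (hS.preimage (by fun_prop : Continuous fun e : ℝ => (F.1, e))).mem_nhds h1
    have h0 : 0 < ε := h1.1.1.1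
    have h4 : Ioo 0 (1 / ((N : ℝ) + 1)) ∈ 𝓝 ε := Ioo_mem_nhds h0 h2
    obtain ⟨l, r, hlr, hsub⟩ := mem_nhds_iff_exists_Ioo_subset.1 (inter_mem h3 h4)
    have hle : l < r := hlr.1.trans hlr.2
    -- shrink to get the bounds for the end points
    have hl1 := hlr.1
    have hl2 := hlr.2
    refine ⟨(l + ε) / 2, (r + ε) / 2, ?_, by linarith, ?_, ?_⟩
    · have hm : (l + ε) / 2 ∈ Ioo l r := ⟨by linarith, by linarith⟩
      exact (hsub hm).2.1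
    · have hm : (r + ε) / 2 ∈ Ioo l r := ⟨by linarith, by linarith⟩
      exact (hsub hm).2.2.le
    · intro e he
      have hm : e ∈ Ioo l r := ⟨by linarith [he.1], by linarith [he.2]⟩
      exact (hsub hm).1
  choose l r h1 h2 h3 h4 using key
  refine ⟨l, r, fun n => ⟨h1 n, h2 n⟩, ?_, fun n ε hε => ?_⟩
  · refine squeeze_zero (fun n => (h1 n).le.trans (h2 n).le) h3 ?_
    exact tendsto_one_div_add_atTop_nhds_zero_nat
  · have := h4 n ε hε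
    exact ⟨this.1.1.1, this.1.2, this.2.2⟩

end Pool.Agent.Helper41.Canard
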