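import Pool.Agent.Helper41.CanardGeneric
import Pool.Agent.Helper41.CanardCurve

set_option autoImplicit false

/-!
# An open set of systems with simple unconnected slow curve
-/

namespace Pool.Agent.Helper41.Canard

open Set Filter Topology
open scoped ContDiff NNReal
open Pool.Agent.Helper41.CanardCurve

/-- `f(x,y,0)` as a function on the plane. -/
def SlowFast.h (F : SlowFast) (p : ℝ × ℝ) : ℝ := F.f (p.1, p.2, 0)

lemma h_perx_int (F : SlowFast) (n : ℤ) (x y : ℝ) : F.h (x + n * (2 * Real.pi), y) = F.h (x, y) := by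
  have h1 : Function.Periodic (fun x => F.h (x, y)) (2 * Real.pi) := fun x => F.f_perx x y 0
  exact (h1.int_mul n) x

lemma h_pery_int (F : SlowFast) (n : ℤ) (x y : ℝ) : F.h (x, y + n * (2 * Real.pi)) = F.h (x, y) := by
  have h1 : Function.Periodic (fun y => F.h (x, y)) (2 * Real.pi) := fun y => F.f_pery x y 0
  exact (h1.int_mul n) y

lemma fx_perx_int (F : SlowFast) (n : ℤ) (x y : ℝ) :
    F.fx (x + n * (2 * Real.pi), y) = F.fx (x, y) := by
  have h1 : Function.Periodic (fun x => F.fx (x, y)) (2 * Real.pi) := fun x => fx_perx F x y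
  exact (h1.int_mul n) x

lemma fx_pery_int (F : SlowFast) (n : ℤ) (x y : ℝ) :
    F.fx (x, y + n * (2 * Real.pi)) = F.fx (x, y) := by
  have h1 : Function.Periodic (fun y => F.fx (x, y)) (2 * Real.pi) := fun y => fx_pery F x y
  exact (h1.int_mul n) y

lemma circ_eq_iff (x y : ℝ) : (x : Circ) = (y : Circ) ↔ ∃ n : ℤ, x = y + n * (2 * Real.pi) := by
  constructor
  · intro h
    have h1 : ((x - y : ℝ) : Circ) = 0 := by rw [AddCircle.coe_sub, h, sub_self]
    rw [AddCircle.coe_eq_zero_iff] at h1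
    obtain ⟨n, hn⟩ := h1
    refine ⟨n, ?_⟩
    rw [zsmul_eq_mul] at hn
    linarith
  · rintro ⟨n, rfl⟩
    have h1 : ((n * (2 * Real.pi) : ℝ) : Circ) = 0 := by
      rw [AddCircle.coe_eq_zero_iff]
      exact ⟨n, by rw [zsmul_eq_mul]⟩
    rw [AddCircle.coe_add, h1, add_zero]

lemma toTorus_eq_iff (p q : ℝ × ℝ) : toTorus p = toTorus q ↔
    ∃ n m : ℤ, p = (q.1 + n * (2 * Real.pi), q.2 + m * (2 * Real.pi)) := by
  rw [toTorus, toTorus, Prod.mk.injEq, circ_eq_iff, circ_eq_iff]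
  constructor
  · rintro ⟨⟨n, hn⟩, ⟨m, hm⟩⟩
    exact ⟨n, m, Prod.ext hn hm⟩
  · rintro ⟨n, m, h⟩
    exact ⟨⟨n, by rw [h]⟩, ⟨m, by rw [h]⟩⟩

lemma h_torus (F : SlowFast) {p q : ℝ × ℝ} (h : toTorus p = toTorus q) : F.h p = F.h q := by
  obtain ⟨n, m, rfl⟩ := (toTorus_eq_iff p q).1 h
  rw [h_perx_int, h_pery_int]

lemma fx_torus (F : SlowFast) {p q : ℝ × ℝ} (h : toTorus p = toTorus q) : F.fx p = F.fx q := by
  obtain ⟨n, m, rfl⟩ := (toTorus_eq_iff p q).1 h
  rw [fx_perx_int, fx_pery_int]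

lemma continuous_toTorus : Continuous toTorus := by
  have h1 : Continuous (fun x : ℝ => (x : Circ)) := AddCircle.continuous_mk' _
  exact (h1.comp continuous_fst).prodMk (h1.comp continuous_snd)

lemma exists_shift (x a : ℝ) : ∃ n : ℤ, x + n * (2 * Real.pi) ∈ Ico a (a + 2 * Real.pi) := by
  have hπ : (0 : ℝ) < 2 * Real.pi := by positivity
  obtain ⟨n, hn, -⟩ := existsUnique_sub_zsmul_mem_Ico hπ x a
  refine ⟨-n, ?_⟩
  rw [zsmul_eq_mul] at hn
  push_cast
  rw [neg_mul, ← sub_eq_add_neg]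
  exact hn

/-- The half-width of the strip. -/
noncomputable def rr : ℝ := Real.pi / 3

/-- The conditions defining the open set, for the window size `e`. -/
structure Good (e : ℝ) (F : SlowFast) : Prop where
  c1 : ∀ p ∈ Icc (-rr) rr ×ˢ Icc 0 (2 * Real.pi), 0 < F.fxx p
  c2 : ∀ p ∈ Icc rr Real.pi ×ˢ Icc 0 (2 * Real.pi), 0 < F.h p
  c2' : ∀ p ∈ Icc (-Real.pi) (-rr) ×ˢ Icc 0 (2 * Real.pi), 0 < F.h p
  c3a : ∀ p ∈ Icc (-rr) rr ×ˢ Icc (Real.pi / 4 - e) (Real.pi / 4 + e), 0 < -F.fy p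
  c3b : ∀ p ∈ Icc (-rr) rr ×ˢ Icc (5 * Real.pi / 4 - e) (5 * Real.pi / 4 + e), 0 < -F.fy p
  c3c : ∀ p ∈ Icc (-rr) rr ×ˢ Icc (3 * Real.pi / 4 - e) (3 * Real.pi / 4 + e), 0 < F.fy p
  c3d : ∀ p ∈ Icc (-rr) rr ×ˢ Icc (7 * Real.pi / 4 - e) (7 * Real.pi / 4 + e), 0 < F.fy p
  c4a : ∀ p ∈ Icc (-Real.pi) Real.pi ×ˢ Icc 0 (Real.pi / 4 - e), 0 < F.h p
  c4b : ∀ p ∈ Icc (-Real.pi) Real.pi ×ˢ Icc (3 * Real.pi / 4 + e) (5 * Real.pi / 4 - e), 0 < F.h p
  c4c : ∀ p ∈ Icc (-Real.pi) Real.pi ×ˢ Icc (7 * Real.pi / 4 + e) (2 * Real.pi), 0 < F.h p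
  c5a : ∀ p ∈ ({0} : Set ℝ) ×ˢ Icc (Real.pi / 4 + e) (3 * Real.pi / 4 - e), 0 < -F.h p
  c5b : ∀ p ∈ ({0} : Set ℝ) ×ˢ Icc (5 * Real.pi / 4 + e) (7 * Real.pi / 4 - e), 0 < -F.h p

lemma isOpen_good (e : ℝ) : IsOpen {F : SlowFast | Good e F} := by
  have hh : Continuous (fun q : SlowFast × (ℝ × ℝ) => q.1.h q.2) := continuous_f0
  have e1 := isOpen_forall_pos continuous_fxx
    ((isCompact_Icc (a := -rr) (b := rr)).prod (isCompact_Icc (a := (0 : ℝ)) (b := 2 * Real.pi)))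
  have e2 := isOpen_forall_pos hh
    ((isCompact_Icc (a := rr) (b := Real.pi)).prod (isCompact_Icc (a := (0 : ℝ)) (b := 2 * Real.pi)))
  have e2' := isOpen_forall_pos hh
    ((isCompact_Icc (a := -Real.pi) (b := -rr)).prod (isCompact_Icc (a := (0 : ℝ)) (b := 2 * Real.pi)))
  have e3a := isOpen_forall_pos continuous_fy.neg ((isCompact_Icc (a := -rr) (b := rr)).prod
    (isCompact_Icc (a := Real.pi / 4 - e) (b := Real.pi / 4 + e)))
  have e3b := isOpen_forall_pos continuous_fy.neg ((isCompact_Icc (a := -rr) (b := rr)).prod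
    (isCompact_Icc (a := 5 * Real.pi / 4 - e) (b := 5 * Real.pi / 4 + e)))
  have e3c := isOpen_forall_pos continuous_fy ((isCompact_Icc (a := -rr) (b := rr)).prod
    (isCompact_Icc (a := 3 * Real.pi / 4 - e) (b := 3 * Real.pi / 4 + e)))
  have e3d := isOpen_forall_pos continuous_fy ((isCompact_Icc (a := -rr) (b := rr)).prod
    (isCompact_Icc (a := 7 * Real.pi / 4 - e) (b := 7 * Real.pi / 4 + e)))
  have e4a := isOpen_forall_pos hh ((isCompact_Icc (a := -Real.pi) (b := Real.pi)).prod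
    (isCompact_Icc (a := (0 : ℝ)) (b := Real.pi / 4 - e)))
  have e4b := isOpen_forall_pos hh ((isCompact_Icc (a := -Real.pi) (b := Real.pi)).prod
    (isCompact_Icc (a := 3 * Real.pi / 4 + e) (b := 5 * Real.pi / 4 - e)))
  have e4c := isOpen_forall_pos hh ((isCompact_Icc (a := -Real.pi) (b := Real.pi)).prod
    (isCompact_Icc (a := 7 * Real.pi / 4 + e) (b := 2 * Real.pi)))
  have e5a := isOpen_forall_pos hh.neg ((isCompact_singleton (x := (0 : ℝ))).prod
    (isCompact_Icc (a := Real.pi / 4 + e) (b := 3 * Real.pi / 4 - e)))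
  have e5b := isOpen_forall_pos hh.neg ((isCompact_singleton (x := (0 : ℝ))).prod
    (isCompact_Icc (a := 5 * Real.pi / 4 + e) (b := 7 * Real.pi / 4 - e)))
  have := e1.inter (e2.inter (e2'.inter (e3a.inter (e3b.inter (e3c.inter (e3d.inter (e4a.inter
    (e4b.inter (e4c.inter (e5a.inter e5b))))))))))
  convert this using 1
  ext F
  constructor
  · intro G
    exact ⟨G.c1, G.c2, G.c2', G.c3a, G.c3b, G.c3c, G.c3d, G.c4a, G.c4b, G.c4c, G.c5a, G.c5b⟩
  · rintro ⟨h1, h2, h3, h4, h5, h6, h7, h8, h9, h10, h11, h12⟩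
    exact ⟨h1, h2, h3, h4, h5, h6, h7, h8, h9, h10, h11, h12⟩

/-- The model system. -/
noncomputable def model : SlowFast where
  f := fun p => 1 + 1 / 4 * Real.cos (2 * p.2.1) - Real.cos p.1
  g := fun _ => 1
  smooth_f := by
    have h1 : ContDiff ℝ ∞ (fun p : ℝ × ℝ × ℝ => Real.cos (2 * p.2.1)) :=
      Real.contDiff_cos.comp (contDiff_const.mul (contDiff_fst.comp contDiff_snd))
    have h2 : ContDiff ℝ ∞ (fun p : ℝ × ℝ × ℝ => Real.cos p.1) :=
      Real.contDiff_cos.comp contDiff_fst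
    exact (contDiff_const.add (contDiff_const.mul h1)).sub h2
  smooth_g := contDiff_const
  f_perx := by
    intro x y ε
    simp only [Real.cos_add_two_pi]
  f_pery := by
    intro x y ε
    have : 2 * (y + 2 * Real.pi) = 2 * y + 2 * Real.pi + 2 * Real.pi := by ring
    simp only [this, Real.cos_add_two_pi]
  g_perx := fun _ _ _ => rfl
  g_pery := fun _ _ _ => rfl
  g_pos := fun _ _ _ _ => one_pos

lemma model_h (x y : ℝ) : model.h (x, y) = 1 + 1 / 4 * Real.cos (2 * y) - Real.cos x := rfl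

lemma model_fx (x y : ℝ) : model.fx (x, y) = Real.sin x := by
  have h1 : HasDerivAt (fun x => model.f (x, y, 0)) (Real.sin x) x := by
    have h2 := (Real.hasDerivAt_cos x).const_sub (1 + 1 / 4 * Real.cos (2 * y))
    rw [neg_neg] at h2
    exact h2
  exact (hasDerivAt_fx model x y).unique h1

lemma model_fxx (x y : ℝ) : model.fxx (x, y) = Real.cos x := by
  have h1 : HasDerivAt (fun x => model.fx (x, y)) (Real.cos x) x := by
    simp only [model_fx]
    exact Real.hasDerivAt_sin x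
  exact (hasDerivAt_fxx model x y).unique h1

lemma model_fy (x y : ℝ) : model.fy (x, y) = -(1 / 2) * Real.sin (2 * y) := by
  have h1 : HasDerivAt (fun y => model.f (x, y, 0)) (-(1 / 2) * Real.sin (2 * y)) y := by
    have h3 : HasDerivAt (fun y : ℝ => 2 * y) (2 * 1) y := (hasDerivAt_id' y).const_mul 2
    have h2 := (((h3.cos).const_mul (1 / 4)).const_add 1).sub_const (Real.cos x)
    have h4 : -(1 / 2) * Real.sin (2 * y) = 1 / 4 * (-Real.sin (2 * y) * (2 * 1)) := by ring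
    rw [h4]
    exact h2
  exact (hasDerivAt_fy model x y).unique h1

lemma cos_le_half {x : ℝ} (h1 : rr ≤ x) (h2 : x ≤ Real.pi) : Real.cos x ≤ 1 / 2 := by
  rw [← Real.cos_pi_div_three]
  exact Real.cos_le_cos_of_nonneg_of_le_pi (by positivity) h2 h1

lemma half_le_cos {x : ℝ} (h1 : -rr ≤ x) (h2 : x ≤ rr) : 1 / 2 ≤ Real.cos x := by
  rw [← Real.cos_abs, ← Real.cos_pi_div_three]
  have h3 : |x| ≤ Real.pi / 3 := abs_le.2 ⟨h1, h2⟩
  exact Real.cos_le_cos_of_nonneg_of_le_pi (abs_nonneg x) (by linarith [Real.pi_pos]) h3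

lemma good_model {e : ℝ} (he : 0 < e) (he' : e ≤ Real.pi / 16) : Good e model := by
  have hπ := Real.pi_pos
  refine ⟨?_, ?_, ?_, ?_, ?_, ?_, ?_, ?_, ?_, ?_, ?_, ?_⟩
  · rintro ⟨x, y⟩ ⟨hx, -⟩
    rw [model_fxx]
    linarith [half_le_cos hx.1 hx.2]
  · rintro ⟨x, y⟩ ⟨hx, -⟩
    rw [model_h]
    linarith [cos_le_half hx.1 hx.2, Real.neg_one_le_cos (2 * y)]
  · rintro ⟨x, y⟩ ⟨hx, -⟩
    rw [model_h, ← Real.cos_neg x]
    linarith [cos_le_half (x := -x) (by linarith [hx.2]) (by linarith [hx.1]),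
      Real.neg_one_le_cos (2 * y)]
  · rintro ⟨x, y⟩ ⟨-, hy1, hy2⟩
    rw [model_fy]
    simp only at hy1 hy2
    have := Real.sin_pos_of_pos_of_lt_pi (x := 2 * y) (by linarith) (by linarith)
    linarith
  · rintro ⟨x, y⟩ ⟨-, hy1, hy2⟩
    rw [model_fy]
    simp only at hy1 hy2
    have := Real.sin_pos_of_pos_of_lt_pi (x := 2 * y - 2 * Real.pi) (by linarith) (by linarith)
    rw [Real.sin_sub_two_pi] at this
    linarith
  · rintro ⟨x, y⟩ ⟨-, hy1, hy2⟩
    rw [model_fy]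
    simp only at hy1 hy2
    have := Real.sin_pos_of_pos_of_lt_pi (x := 2 * y - Real.pi) (by linarith) (by linarith)
    rw [Real.sin_sub_pi] at this
    linarith
  · rintro ⟨x, y⟩ ⟨-, hy1, hy2⟩
    rw [model_fy]
    simp only at hy1 hy2
    have := Real.sin_pos_of_pos_of_lt_pi (x := 2 * y - 2 * Real.pi - Real.pi) (by linarith)
      (by linarith)
    rw [Real.sin_sub_pi, Real.sin_sub_two_pi] at this
    linarith
  · rintro ⟨x, y⟩ ⟨-, hy1, hy2⟩
    rw [model_h]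
    simp only at hy1 hy2
    have := Real.cos_pos_of_mem_Ioo (x := 2 * y) ⟨by linarith, by linarith⟩
    linarith [Real.cos_le_one x]
  · rintro ⟨x, y⟩ ⟨-, hy1, hy2⟩
    rw [model_h]
    simp only at hy1 hy2
    have := Real.cos_pos_of_mem_Ioo (x := 2 * y - 2 * Real.pi) ⟨by linarith, by linarith⟩
    rw [Real.cos_sub_two_pi] at this
    linarith [Real.cos_le_one x]
  · rintro ⟨x, y⟩ ⟨-, hy1, hy2⟩
    rw [model_h]
    simp only at hy1 hy2
    have := Real.cos_pos_of_mem_Ioo (x := 2 * y - 2 * Real.pi - 2 * Real.pi)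
      ⟨by linarith, by linarith⟩
    rw [Real.cos_sub_two_pi, Real.cos_sub_two_pi] at this
    linarith [Real.cos_le_one x]
  · rintro ⟨x, y⟩ ⟨hx, hy1, hy2⟩
    have hx' : x = 0 := hx
    subst hx'
    rw [model_h, Real.cos_zero]
    simp only at hy1 hy2
    have := Real.cos_neg_of_pi_div_two_lt_of_lt (x := 2 * y) (by linarith) (by linarith)
    linarith
  · rintro ⟨x, y⟩ ⟨hx, hy1, hy2⟩
    have hx' : x = 0 := hx
    subst hx'
    rw [model_h, Real.cos_zero]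
    simp only at hy1 hy2
    have := Real.cos_neg_of_pi_div_two_lt_of_lt (x := 2 * y - 2 * Real.pi) (by linarith)
      (by linarith)
    rw [Real.cos_sub_two_pi] at this
    linarith

/-- box data for the first component -/
lemma box0 {e : ℝ} (he : 0 < e) (he' : e ≤ Real.pi / 16) {F : SlowFast} (G : Good e F) :
    Box F.h F.fx F.fy F.fxx rr (Real.pi / 4 - e) (Real.pi / 4 + e) (3 * Real.pi / 4 - e)
      (3 * Real.pi / 4 + e) := by
  have hπ := Real.pi_pos
  have hrr : 0 < rr := by unfold rr; positivity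
  have hrπ : rr ≤ Real.pi := by unfold rr; linarith
  refine ⟨hrr, by linarith, by linarith, by linarith, ?_, ?_, hasDerivAt_fx F, hasDerivAt_fy F,
    hasDerivAt_fxx F, ?_, ?_, ?_, ?_, ?_, ?_, ?_⟩
  · exact F.smooth_f.continuous.comp (by fun_prop)
  · exact continuous_fx.comp (f := fun p : ℝ × ℝ => (F, p)) (by fun_prop)
  · intro x hx y hy
    exact G.c1 (x, y) ⟨hx, by linarith [hy.1], by linarith [hy.2]⟩
  · intro y hy
    exact ⟨G.c2 (rr, y) ⟨⟨le_rfl, hrπ⟩, by linarith [hy.1], by linarith [hy.2]⟩,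
      G.c2' (-rr, y) ⟨⟨by linarith, le_rfl⟩, by linarith [hy.1], by linarith [hy.2]⟩⟩
  · intro x hx y hy
    have := G.c3a (x, y) ⟨hx, hy⟩
    linarith
  · intro x hx y hy
    exact G.c3c (x, y) ⟨hx, hy⟩
  · intro x hx
    exact G.c4a (x, _) ⟨⟨by linarith [hx.1], by linarith [hx.2]⟩, by linarith, le_rfl⟩
  · intro x hx
    exact G.c4b (x, _) ⟨⟨by linarith [hx.1], by linarith [hx.2]⟩, le_rfl, by linarith⟩
  · intro y hy
    have := G.c5a (0, y) ⟨rfl, hy⟩
    linarith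

/-- box data for the second component -/
lemma box1 {e : ℝ} (he : 0 < e) (he' : e ≤ Real.pi / 16) {F : SlowFast} (G : Good e F) :
    Box F.h F.fx F.fy F.fxx rr (5 * Real.pi / 4 - e) (5 * Real.pi / 4 + e) (7 * Real.pi / 4 - e)
      (7 * Real.pi / 4 + e) := by
  have hπ := Real.pi_pos
  have hrr : 0 < rr := by unfold rr; positivity
  have hrπ : rr ≤ Real.pi := by unfold rr; linarith
  refine ⟨hrr, by linarith, by linarith, by linarith, ?_, ?_, hasDerivAt_fx F, hasDerivAt_fy F,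
    hasDerivAt_fxx F, ?_, ?_, ?_, ?_, ?_, ?_, ?_⟩
  · exact F.smooth_f.continuous.comp (by fun_prop)
  · exact continuous_fx.comp (f := fun p : ℝ × ℝ => (F, p)) (by fun_prop)
  · intro x hx y hy
    exact G.c1 (x, y) ⟨hx, by linarith [hy.1], by linarith [hy.2]⟩
  · intro y hy
    exact ⟨G.c2 (rr, y) ⟨⟨le_rfl, hrπ⟩, by linarith [hy.1], by linarith [hy.2]⟩,
      G.c2' (-rr, y) ⟨⟨by linarith, le_rfl⟩, by linarith [hy.1], by linarith [hy.2]⟩⟩
  · intro x hx y hy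
    have := G.c3b (x, y) ⟨hx, hy⟩
    linarith
  · intro x hx y hy
    exact G.c3d (x, y) ⟨hx, hy⟩
  · intro x hx
    exact G.c4b (x, _) ⟨⟨by linarith [hx.1], by linarith [hx.2]⟩, by linarith, le_rfl⟩
  · intro x hx
    exact G.c4c (x, _) ⟨⟨by linarith [hx.1], by linarith [hx.2]⟩, le_rfl, by linarith⟩
  · intro y hy
    have := G.c5b (0, y) ⟨rfl, hy⟩
    linarith

/-- the piece of the zero set in a box -/
def piece (F : SlowFast) (A B : ℝ) : Set (ℝ × ℝ) :=
  {p : ℝ × ℝ | p.1 ∈ Icc (-rr) rr ∧ p.2 ∈ Icc A B ∧ F.h p = 0}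

lemma isCompact_piece (F : SlowFast) (A B : ℝ) : IsCompact (piece F A B) := by
  have hc : Continuous F.h := F.smooth_f.continuous.comp (by fun_prop)
  have : piece F A B = (Icc (-rr) rr ×ˢ Icc A B) ∩ {p | F.h p = 0} := by
    ext p
    constructor
    · rintro ⟨h1, h2, h3⟩
      exact ⟨⟨h1, h2⟩, h3⟩
    · rintro ⟨⟨h1, h2⟩, h3⟩
      exact ⟨h1, h2, h3⟩
  rw [this]
  exact (isCompact_Icc.prod isCompact_Icc).inter_right (isClosed_eq hc continuous_const)

/-- what the box lemma says on the torus -/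
lemma component_facts {F : SlowFast} {A A' B' B : ℝ}
    (H : Box F.h F.fx F.fy F.fxx rr A A' B' B) :
    ∃ a b : ℝ, A < a ∧ a < A' ∧ B' < b ∧ b < B ∧
      IsConnected (toTorus '' piece F A B) ∧
      Prod.snd '' (toTorus '' piece F A B) = (fun y : ℝ => (y : Circ)) '' Icc a b ∧
      ∃ ξ η : ℝ, toTorus (ξ, a) ∈ toTorus '' piece F A B ∧ toTorus (η, b) ∈ toTorus '' piece F A B ∧
        (∀ p : ℝ × ℝ, toTorus p ∈ toTorus '' piece F A B →
          (F.fx p = 0 ↔ toTorus p = toTorus (ξ, a) ∨ toTorus p = toTorus (η, b))) ∧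
        F.fxx (ξ, a) ≠ 0 ∧ F.fy (ξ, a) ≠ 0 ∧ F.fxx (η, b) ≠ 0 ∧ F.fy (η, b) ≠ 0 := by
  obtain ⟨a, b, ξ, η, h1, h2, h3, h4, hξ, hη, hξ0, hη0, hin, hex, hfold, hconn⟩ := H.describe
  have hAB : a ∈ Icc A B := ⟨h1.le, by linarith [H.A'B', H.B'B]⟩
  have hAB' : b ∈ Icc A B := ⟨by linarith [H.AA', H.A'B'], h4.le⟩
  have hξI : ξ ∈ Icc (-rr) rr := ⟨hξ.1.le, hξ.2.le⟩
  have hηI : η ∈ Icc (-rr) rr := ⟨hη.1.le, hη.2.le⟩
  have hab : a ≤ b := by linarith [H.A'B']
  have hξp : (ξ, a) ∈ piece F A B := ⟨hξI, hAB, hξ0⟩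
  have hηp : (η, b) ∈ piece F A B := ⟨hηI, hAB', hη0⟩
  refine ⟨a, b, h1, h2, h3, h4, hconn.image _ continuous_toTorus.continuousOn, ?_, ξ, η,
    ⟨_, hξp, rfl⟩, ⟨_, hηp, rfl⟩, ?_, ?_, ?_, ?_, ?_⟩
  · ext c
    constructor
    · rintro ⟨_, ⟨⟨x, y⟩, ⟨hx, hy, hz⟩, rfl⟩, rfl⟩
      exact ⟨y, hin x hx y hy hz, rfl⟩
    · rintro ⟨y, hy, rfl⟩
      obtain ⟨x, hx, hz⟩ := hex y hy
      exact ⟨toTorus (x, y), ⟨(x, y), ⟨hx, ⟨by linarith [hy.1, hAB.1], by linarith [hy.2, hAB'.2]⟩,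
        hz⟩, rfl⟩, rfl⟩
  · rintro p ⟨⟨x, y⟩, ⟨hx, hy, hz⟩, hp⟩
    have hy' := hin x hx y hy hz
    have key := hfold x hx y hy' hz
    rw [← fx_torus F hp]
    constructor
    · intro h0
      rcases key.1 h0 with h5 | h5
      · left
        rw [← hp, h5]
      · right
        rw [← hp, h5]
    · rintro (h5 | h5)
      · rw [fx_torus F (hp.trans h5)]
        exact (hfold ξ hξI a ⟨le_rfl, hab⟩ hξ0).2 (Or.inl rfl)
      · rw [fx_torus F (hp.trans h5)]
        exact (hfold η hηI b ⟨hab, le_rfl⟩ hη0).2 (Or.inr rfl)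
  · exact (H.conv ξ hξI a hAB).ne'
  · exact (H.neg ξ hξI a ⟨h1.le, h2.le⟩).ne
  · exact (H.conv η hηI b hAB').ne'
  · exact (H.pos η hηI b ⟨h3.le, h4.le⟩).ne'

/-- attracting zero on the left half of the strip, at levels of the middle window -/
lemma left_facts {F : SlowFast} {A A' B' B : ℝ}
    (H : Box F.h F.fx F.fy F.fxx rr A A' B' B) {y : ℝ} (hy : y ∈ Icc A' B') :
    (∃ x ∈ Icc (-rr) 0, toTorus (x, y) ∈ toTorus '' piece F A B ∧ F.fx (x, y) < 0) ∧
    (∀ x ∈ Icc (-rr) 0, ¬ (toTorus (x, y) ∈ toTorus '' piece F A B ∧ 0 < F.fx (x, y))) := by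
  have hyAB : y ∈ Icc A B := ⟨by linarith [hy.1, H.AA'], by linarith [hy.2, H.B'B]⟩
  have h0 : F.h (0, y) < 0 := H.mid y hy
  have h0I : (0 : ℝ) ∈ Icc (-rr) rr := ⟨by linarith [H.r_pos], H.r_pos.le⟩
  constructor
  · obtain ⟨x, hx, hz⟩ := H.exists_left hyAB h0I h0
    have hxI : x ∈ Icc (-rr) rr := ⟨hx.1.le, by linarith [hx.2, H.r_pos]⟩
    exact ⟨x, ⟨hx.1.le, hx.2.le⟩, ⟨_, ⟨hxI, hyAB, hz⟩, rfl⟩, H.slope_left hyAB h0I hxI h0 hz hx.2⟩
  · rintro x hx ⟨⟨p, ⟨-, -, hz⟩, hp⟩, hpos⟩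
    have hz' : F.h (x, y) = 0 := by rw [← h_torus F hp]; exact hz
    have hxI : x ∈ Icc (-rr) rr := ⟨hx.1, by linarith [hx.2, H.r_pos]⟩
    rcases eq_or_lt_of_le hx.2 with h1 | h1
    · rw [h1] at hz'
      linarith
    · have := H.slope_left hyAB h0I hxI h0 hz' h1
      linarith

lemma right_facts {F : SlowFast} {A A' B' B : ℝ}
    (H : Box F.h F.fx F.fy F.fxx rr A A' B' B) {y : ℝ} (hy : y ∈ Icc A' B') :
    (∃ x ∈ Icc 0 rr, toTorus (x, y) ∈ toTorus '' piece F A B ∧ 0 < F.fx (x, y)) ∧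
    (∀ x ∈ Icc 0 rr, ¬ (toTorus (x, y) ∈ toTorus '' piece F A B ∧ F.fx (x, y) < 0)) := by
  have hyAB : y ∈ Icc A B := ⟨by linarith [hy.1, H.AA'], by linarith [hy.2, H.B'B]⟩
  have h0 : F.h (0, y) < 0 := H.mid y hy
  have h0I : (0 : ℝ) ∈ Icc (-rr) rr := ⟨by linarith [H.r_pos], H.r_pos.le⟩
  constructor
  · obtain ⟨x, hx, hz⟩ := H.exists_right hyAB h0I h0
    have hxI : x ∈ Icc (-rr) rr := ⟨by linarith [hx.1, H.r_pos], hx.2.le⟩
    exact ⟨x, ⟨hx.1.le, hx.2.le⟩, ⟨_, ⟨hxI, hyAB, hz⟩, rfl⟩, H.slope_right hyAB h0I hxI h0 hz hx.1⟩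
  · rintro x hx ⟨⟨p, ⟨-, -, hz⟩, hp⟩, hneg⟩
    have hz' : F.h (x, y) = 0 := by rw [← h_torus F hp]; exact hz
    have hxI : x ∈ Icc (-rr) rr := ⟨by linarith [hx.1, H.r_pos], hx.2⟩
    rcases eq_or_lt_of_le hx.1 with h1 | h1
    · rw [← h1] at hz'
      linarith
    · have := H.slope_right hyAB h0I hxI h0 hz' h1
      linarith

/-- the zero set is the union of the two pieces -/
lemma union_pieces {e : ℝ} (he : 0 < e) (he' : e ≤ Real.pi / 16) {F : SlowFast} (G : Good e F) :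
    toTorus '' piece F (Real.pi / 4 - e) (3 * Real.pi / 4 + e) ∪
      toTorus '' piece F (5 * Real.pi / 4 - e) (7 * Real.pi / 4 + e) = F.slowCurve := by
  have hπ := Real.pi_pos
  ext c
  constructor
  · rintro (⟨p, ⟨-, -, hz⟩, rfl⟩ | ⟨p, ⟨-, -, hz⟩, rfl⟩)
    · exact ⟨p, hz, rfl⟩
    · exact ⟨p, hz, rfl⟩
  · rintro ⟨⟨x, y⟩, hz, rfl⟩
    obtain ⟨n, hn⟩ := exists_shift x (-Real.pi)
    obtain ⟨m, hm⟩ := exists_shift y 0
    set x' := x + n * (2 * Real.pi) with hx'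
    set y' := y + m * (2 * Real.pi) with hy'
    have hT : toTorus (x', y') = toTorus (x, y) := (toTorus_eq_iff _ _).2 ⟨n, m, rfl⟩
    have hz' : F.h (x', y') = 0 := by rw [h_torus F hT]; exact hz
    have hyI : y' ∈ Icc 0 (2 * Real.pi) := ⟨hm.1, by linarith [hm.2]⟩
    have hxπ : x' ∈ Icc (-Real.pi) Real.pi := ⟨hn.1, by linarith [hn.2]⟩
    have hx1 : x' < rr := by
      by_contra hcon
      have := G.c2 (x', y') ⟨⟨not_lt.1 hcon, hxπ.2⟩, hyI⟩
      linarith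
    have hx2 : -rr < x' := by
      by_contra hcon
      have := G.c2' (x', y') ⟨⟨hxπ.1, not_lt.1 hcon⟩, hyI⟩
      linarith
    have hxI : x' ∈ Icc (-rr) rr := ⟨hx2.le, hx1.le⟩
    have hy1 : Real.pi / 4 - e < y' := by
      by_contra hcon
      have := G.c4a (x', y') ⟨hxπ, hyI.1, not_lt.1 hcon⟩
      linarith
    have hy2 : y' < 7 * Real.pi / 4 + e := by
      by_contra hcon
      have := G.c4c (x', y') ⟨hxπ, not_lt.1 hcon, hyI.2⟩
      linarith
    rw [← hT]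
    by_cases hy3 : y' ≤ 3 * Real.pi / 4 + e
    · exact Or.inl ⟨_, ⟨hxI, ⟨hy1.le, hy3⟩, hz'⟩, rfl⟩
    · have hy4 : 5 * Real.pi / 4 - e < y' := by
        by_contra hcon
        have := G.c4b (x', y') ⟨hxπ, (not_le.1 hy3).le, not_lt.1 hcon⟩
        linarith
      exact Or.inr ⟨_, ⟨hxI, ⟨hy4.le, hy2.le⟩, hz'⟩, rfl⟩

lemma disjoint_pieces {e : ℝ} (he' : e ≤ Real.pi / 16) (F : SlowFast) :
    Disjoint (toTorus '' piece F (Real.pi / 4 - e) (3 * Real.pi / 4 + e))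
      (toTorus '' piece F (5 * Real.pi / 4 - e) (7 * Real.pi / 4 + e)) := by
  have hπ := Real.pi_pos
  rw [Set.disjoint_left]
  rintro _ ⟨⟨x, y⟩, ⟨-, hy, -⟩, rfl⟩ ⟨⟨x', y'⟩, ⟨-, hy', -⟩, h⟩
  obtain ⟨n, m, h1⟩ := (toTorus_eq_iff _ _).1 h
  have h2 : y' = y + m * (2 * Real.pi) := congrArg Prod.snd h1
  have hy1 : Real.pi / 4 - e ≤ y := hy.1
  have hy2 : y ≤ 3 * Real.pi / 4 + e := hy.2
  have hy3 : 5 * Real.pi / 4 - e ≤ y' := hy'.1
  have hy4 : y' ≤ 7 * Real.pi / 4 + e := hy'.2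
  have h3 : 0 < (m : ℝ) * (2 * Real.pi) := by linarith
  have h4 : (m : ℝ) * (2 * Real.pi) < 1 * (2 * Real.pi) := by linarith
  have h5 : (m : ℝ) < 1 := lt_of_mul_lt_mul_right h4 (by positivity)
  have h6 : (0 : ℝ) < m := by
    by_contra hcon
    have := mul_nonneg (neg_nonneg.2 (not_lt.1 hcon)) (by positivity : (0 : ℝ) ≤ 2 * Real.pi)
    linarith
  have h7 : m < 1 := by exact_mod_cast h5
  have h8 : 0 < m := by exact_mod_cast h6
  omega

/-- The segments. -/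
noncomputable def segM (e : ℝ) : Fin 2 → Segment :=
  ![⟨Real.pi / 4 + 2 * e, -rr, 0⟩, ⟨5 * Real.pi / 4 + 2 * e, -rr, 0⟩]

noncomputable def segP (e : ℝ) : Fin 2 → Segment :=
  ![⟨3 * Real.pi / 4 - 2 * e, 0, rr⟩, ⟨7 * Real.pi / 4 - 2 * e, 0, rr⟩]

/-- Every system in the open set has a simple unconnected slow curve, and the segments are
admissible. -/
theorem good_structure {e δ : ℝ} (he : 0 < e) (he' : e ≤ Real.pi / 16) (heδ : 4 * e ≤ δ)
    {F : SlowFast} (G : Good e F) :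
    ∃ a b M, SimpleUnconnected F a b M ∧ Admissible F a b M δ (segM e) (segP e) := by
  have hπ := Real.pi_pos
  have hrr : 0 < rr := by unfold rr; positivity
  have hrπ : rr < 2 * Real.pi := by unfold rr; linarith
  have H0 := box0 he he' G
  have H1 := box1 he he' G
  obtain ⟨a0, b0, h1, h2, h3, h4, hconn0, hproj0, hf0⟩ := component_facts H0
  obtain ⟨a1, b1, g1, g2, g3, g4, hconn1, hproj1, hf1⟩ := component_facts H1
  have l0 := left_facts H0 (y := Real.pi / 4 + 2 * e) ⟨by linarith, by linarith⟩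
  have l1 := left_facts H1 (y := 5 * Real.pi / 4 + 2 * e) ⟨by linarith, by linarith⟩
  have r0 := right_facts H0 (y := 3 * Real.pi / 4 - 2 * e) ⟨by linarith, by linarith⟩
  have r1 := right_facts H1 (y := 7 * Real.pi / 4 - 2 * e) ⟨by linarith, by linarith⟩
  refine ⟨![a0, a1], ![b0, b1],
    ![toTorus '' piece F (Real.pi / 4 - e) (3 * Real.pi / 4 + e),
      toTorus '' piece F (5 * Real.pi / 4 - e) (7 * Real.pi / 4 + e)], ?_, ?_⟩
  · refine ⟨?_, ?_, ?_, ?_, ?_, ?_, ?_⟩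
    · simp only [Matrix.cons_val_zero, Matrix.cons_val_one]
      refine ⟨by linarith, by linarith, by linarith, by linarith⟩
    · exact union_pieces he he' G
    · exact disjoint_pieces he' F
    · intro i
      fin_cases i
      · exact ((isCompact_piece F _ _).image continuous_toTorus).isClosed
      · exact ((isCompact_piece F _ _).image continuous_toTorus).isClosed
    · intro i
      fin_cases i
      · exact hconn0
      · exact hconn1
    · intro i
      fin_cases i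
      · exact hproj0
      · exact hproj1
    · intro i
      fin_cases i
      · exact hf0
      · exact hf1
  · refine ⟨?_, ?_, ?_, ?_, ?_, ?_, ?_, ?_⟩
    · intro i
      fin_cases i <;> simp [segM] <;> constructor <;> linarith
    · intro i
      fin_cases i <;> simp [segP] <;> constructor <;> linarith
    · intro i
      fin_cases i <;> simp [segM] <;> constructor <;> linarith
    · intro i
      fin_cases i <;> simp [segP] <;> constructor <;> linarith
    · intro i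
      fin_cases i
      · exact l0.1
      · exact l1.1
    · intro i
      fin_cases i
      · exact l0.2
      · exact l1.2
    · intro i
      fin_cases i
      · exact r0.1
      · exact r1.1
    · intro i
      fin_cases i
      · exact r0.2
      · exact r1.2

/-- positivity of the fast component over the windows -/
lemma window_good {e : ℝ} (he : 0 < e) (he' : e ≤ Real.pi / 16) {F : SlowFast} (G : Good e F) :
    (∀ y ∈ Icc (Real.pi - 2 / 5) (Real.pi + 2 / 5), ∀ x, 0 < F.f (x, y, 0)) ∧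
    (∀ y ∈ Icc (2 * Real.pi - 2 / 5) (2 * Real.pi + 2 / 5), ∀ x, 0 < F.f (x, y, 0)) := by
  have hπ := Real.pi_gt_three
  have key : ∀ y, (∀ x ∈ Icc (-Real.pi) Real.pi, 0 < F.h (x, y)) → ∀ x, 0 < F.f (x, y, 0) := by
    intro y h x
    obtain ⟨n, hn⟩ := exists_shift x (-Real.pi)
    have := h _ ⟨hn.1, by linarith [hn.2]⟩
    rw [h_perx_int] at this
    exact this
  constructor
  · intro y hy
    exact key y (fun x hx => G.c4b (x, y) ⟨hx, by linarith [hy.1], by linarith [hy.2]⟩)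
  · intro y hy
    by_cases h : y ≤ 2 * Real.pi
    · exact key y (fun x hx => G.c4c (x, y) ⟨hx, by linarith [hy.1], h⟩)
    · refine key y (fun x hx => ?_)
      have h1 := G.c4a (x, y - 2 * Real.pi) ⟨hx, by linarith [not_le.1 h], by linarith [hy.2]⟩
      have h2 := h_pery_int F 1 x (y - 2 * Real.pi)
      have h3 : y - 2 * Real.pi + ((1 : ℤ) : ℝ) * (2 * Real.pi) = y := by push_cast; ring
      rw [h3] at h2
      rw [h2]
      exact h1

end Pool.Agent.Helper41.Canard
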