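import Mathlib

namespace Pool.Agent.Helper41.FlatSets

/-- Multiples of `p` by an integer: either at most `-p`, or zero, or at least `p`. -/
lemma tri (p m : ℤ) (hp : 0 < p) : p * m ≤ -p ∨ m = 0 ∨ p ≤ p * m := by
  rcases lt_trichotomy m 0 with h | h | h
  · left; nlinarith
  · right; left; exact h
  · right; right; nlinarith

/-- The three kinds of elements: interval, far interval, quadratic pairs. -/
def Kind (p v : ℤ) : Prop :=
  (0 ≤ v ∧ 100 * v ≤ 979 * p) ∨
  (98 * p < 5 * v ∧ 5 * v ≤ 104 * p + 5) ∨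
  ∃ u r e : ℤ, 2 ≤ u ∧ u + 1 ≤ p ∧ r = u ^ 2 % p ∧ 0 ≤ r ∧ r + 1 ≤ p ∧ 0 ≤ e ∧ e ≤ 1 ∧
    v = 24 * (p * u) + 13 * p + 3 * r + e

lemma sidon (p : ℕ) (hp : p.Prime) (hp2 : 2 < p) (a b c d : ℤ)
    (ha : 0 ≤ a ∧ a < p) (hb : 0 ≤ b ∧ b < p) (hc : 0 ≤ c ∧ c < p) (_hd : 0 ≤ d ∧ d < p)
    (h : b + c = a + d)
    (hr : b ^ 2 % (p : ℤ) + c ^ 2 % (p : ℤ) = a ^ 2 % (p : ℤ) + d ^ 2 % (p : ℤ)) :
    b = a ∨ c = a := by
  have hpz : Prime (p : ℤ) := Nat.prime_iff_prime_int.mp hp
  have h1 : (p : ℤ) ∣ (b ^ 2 + c ^ 2) - (a ^ 2 + d ^ 2) := by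
    have e1 := Int.emod_add_mul_ediv (b ^ 2) (p : ℤ)
    have e2 := Int.emod_add_mul_ediv (c ^ 2) (p : ℤ)
    have e3 := Int.emod_add_mul_ediv (a ^ 2) (p : ℤ)
    have e4 := Int.emod_add_mul_ediv (d ^ 2) (p : ℤ)
    refine ⟨b ^ 2 / p + c ^ 2 / p - a ^ 2 / p - d ^ 2 / p, ?_⟩
    linear_combination hr - e1 - e2 + e3 + e4
  have hd' : d = b + c - a := by omega
  have h2 : (b ^ 2 + c ^ 2) - (a ^ 2 + d ^ 2) = -(2 * ((b - a) * (c - a))) := by
    rw [hd']; ring
  rw [h2, dvd_neg] at h1
  rcases hpz.dvd_or_dvd h1 with h3 | h3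
  · exfalso
    have := Int.le_of_dvd (by norm_num) h3
    omega
  · rcases hpz.dvd_or_dvd h3 with h4 | h4
    · left
      by_contra hne
      have := Int.natAbs_dvd_natAbs.mpr h4
      have := Nat.le_of_dvd (by omega) this
      omega
    · right
      by_contra hne
      have := Int.natAbs_dvd_natAbs.mpr h4
      have := Nat.le_of_dvd (by omega) this
      omega

lemma small_step (p a b c : ℤ) (ha : 0 ≤ a) (hab : a ≤ b) (hac : a ≤ c) (h1 : b ≤ a + 1)
    (hc : c ≤ 24 * p ^ 2) : (b - a) * (c - a) ≤ 24 * p ^ 2 := by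
  have : (b - a) * (c - a) ≤ 1 * (c - a) :=
    mul_le_mul_of_nonneg_right (by omega) (by omega)
  linarith

lemma flat4 (p : ℕ) (hp : p.Prime) (hbig : 100 ≤ p) (a b c d : ℤ)
    (ha : Kind p a) (hb : Kind p b) (hc : Kind p c) (hd : Kind p d)
    (h : a + d = b + c) (hab : a ≤ b) (hbc : b ≤ c) :
    (b - a) * (c - a) ≤ 24 * (p : ℤ) ^ 2 := by
  have hp0 : (100 : ℤ) ≤ p := by exact_mod_cast hbig
  have hT : ∀ u : ℤ, 2 ≤ u → u + 1 ≤ p → 2 * (p : ℤ) ≤ p * u ∧ (p : ℤ) * u ≤ p ^ 2 - p := by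
    intro u h1 h2
    constructor <;> nlinarith
  have hcd : c ≤ d := by omega
  rcases ha with ⟨a1, a2⟩ | ⟨a1, a2⟩ | ⟨ua, ra, ea, a1, a2, a3, a4, a5, a6, a7, a8⟩
  · rcases hb with ⟨b1, b2⟩ | ⟨b1, b2⟩ | ⟨ub, rb, eb, b1, b2, b3, b4, b5, b6, b7, b8⟩
    · rcases hc with ⟨c1, c2⟩ | ⟨c1, c2⟩ | ⟨uc, rc, ec, c1, c2, c3, c4, c5, c6, c7, c8⟩
      · rcases hd with ⟨d1, d2⟩ | ⟨d1, d2⟩ | ⟨ud, rd, ed, d1, d2, d3, d4, d5, d6, d7, d8⟩
        · -- IIII
          nlinarith [sq_nonneg (b - c)]
        · exfalso; omega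
        · exfalso; have := hT ud d1 d2; omega
      · rcases hd with ⟨d1, d2⟩ | ⟨d1, d2⟩ | ⟨ud, rd, ed, d1, d2, d3, d4, d5, d6, d7, d8⟩
        · exfalso; omega
        · -- IIJJ
          have k1 : 5 * (b - a) ≤ 6 * p + 5 := by omega
          have k2 : 5 * (c - a) ≤ 104 * p + 5 - 5 * (b - a) := by omega
          have k3 : 0 ≤ b - a := by omega
          have k4 : 0 ≤ (6 * (p : ℤ) + 5 - 5 * (b - a)) * (98 * p - 5 * (b - a)) :=
            mul_nonneg (by omega) (by omega)
          have k5 : 5 * (b - a) * (5 * (c - a)) ≤ 5 * (b - a) * (104 * p + 5 - 5 * (b - a)) :=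
            mul_le_mul_of_nonneg_left k2 (by omega)
          nlinarith
        · exfalso; have := hT ud d1 d2; omega
      · rcases hd with ⟨d1, d2⟩ | ⟨d1, d2⟩ | ⟨ud, rd, ed, d1, d2, d3, d4, d5, d6, d7, d8⟩
        · exfalso; have := hT uc c1 c2; omega
        · exfalso; have := hT uc c1 c2; omega
        · -- IITT
          have tc := hT uc c1 c2
          have td := hT ud d1 d2
          have e1 : (p : ℤ) * (ud - uc) = p * ud - p * uc := by ring
          rcases tri p (ud - uc) (by omega) with t | t | t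
          · exfalso; omega
          · have hu : ud = uc := by omega
            have hr : rd = rc := by rw [d3, c3, hu]
            rw [hu] at d8
            apply small_step p a b c (by omega) (by omega) (by omega) (by omega)
            nlinarith
          · exfalso; omega
    · rcases hc with ⟨c1, c2⟩ | ⟨c1, c2⟩ | ⟨uc, rc, ec, c1, c2, c3, c4, c5, c6, c7, c8⟩
      · exfalso; omega
      · rcases hd with ⟨d1, d2⟩ | ⟨d1, d2⟩ | ⟨ud, rd, ed, d1, d2, d3, d4, d5, d6, d7, d8⟩
        · exfalso; omega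
        · exfalso; omega
        · exfalso; have := hT ud d1 d2; omega
      · rcases hd with ⟨d1, d2⟩ | ⟨d1, d2⟩ | ⟨ud, rd, ed, d1, d2, d3, d4, d5, d6, d7, d8⟩
        · exfalso; have := hT uc c1 c2; omega
        · exfalso; have := hT uc c1 c2; omega
        · -- IJTT
          exfalso
          have tc := hT uc c1 c2
          have td := hT ud d1 d2
          have e1 : (p : ℤ) * (ud - uc) = p * ud - p * uc := by ring
          rcases tri p (ud - uc) (by omega) with t | t | t
          · omega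
          · have hu : ud = uc := by omega
            have hr : rd = rc := by rw [d3, c3, hu]
            rw [hu] at d8
            omega
          · omega
    · rcases hc with ⟨c1, c2⟩ | ⟨c1, c2⟩ | ⟨uc, rc, ec, c1, c2, c3, c4, c5, c6, c7, c8⟩
      · exfalso; have := hT ub b1 b2; omega
      · exfalso; have := hT ub b1 b2; omega
      · rcases hd with ⟨d1, d2⟩ | ⟨d1, d2⟩ | ⟨ud, rd, ed, d1, d2, d3, d4, d5, d6, d7, d8⟩
        · exfalso; have := hT uc c1 c2; omega
        · exfalso; have := hT uc c1 c2; omega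
        · -- ITTT
          exfalso
          have tb := hT ub b1 b2
          have tc := hT uc c1 c2
          have td := hT ud d1 d2
          have e1 : (p : ℤ) * (ub + uc - ud) = p * ub + p * uc - p * ud := by ring
          rcases tri p (ub + uc - ud) (by omega) with t | t | t
          · omega
          · rw [t] at e1
            omega
          · omega
  · rcases hb with ⟨b1, b2⟩ | ⟨b1, b2⟩ | ⟨ub, rb, eb, b1, b2, b3, b4, b5, b6, b7, b8⟩
    · exfalso; omega
    · rcases hc with ⟨c1, c2⟩ | ⟨c1, c2⟩ | ⟨uc, rc, ec, c1, c2, c3, c4, c5, c6, c7, c8⟩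
      · exfalso; omega
      · rcases hd with ⟨d1, d2⟩ | ⟨d1, d2⟩ | ⟨ud, rd, ed, d1, d2, d3, d4, d5, d6, d7, d8⟩
        · exfalso; omega
        · -- JJJJ
          have k1 : 5 * (b - a) ≤ 6 * p + 5 := by omega
          have k2 : 5 * (c - a) ≤ 6 * p + 5 := by omega
          have k3 : 5 * (b - a) * (5 * (c - a)) ≤ (6 * p + 5) * (6 * p + 5) :=
            mul_le_mul k1 k2 (by omega) (by omega)
          nlinarith
        · exfalso; have := hT ud d1 d2; omega
      · rcases hd with ⟨d1, d2⟩ | ⟨d1, d2⟩ | ⟨ud, rd, ed, d1, d2, d3, d4, d5, d6, d7, d8⟩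
        · exfalso; have := hT uc c1 c2; omega
        · exfalso; have := hT uc c1 c2; omega
        · -- JJTT
          have tc := hT uc c1 c2
          have td := hT ud d1 d2
          have e1 : (p : ℤ) * (ud - uc) = p * ud - p * uc := by ring
          rcases tri p (ud - uc) (by omega) with t | t | t
          · exfalso; omega
          · have hu : ud = uc := by omega
            have hr : rd = rc := by rw [d3, c3, hu]
            rw [hu] at d8
            apply small_step p a b c (by omega) (by omega) (by omega) (by omega)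
            nlinarith
          · exfalso; omega
    · rcases hc with ⟨c1, c2⟩ | ⟨c1, c2⟩ | ⟨uc, rc, ec, c1, c2, c3, c4, c5, c6, c7, c8⟩
      · exfalso; have := hT ub b1 b2; omega
      · exfalso; have := hT ub b1 b2; omega
      · rcases hd with ⟨d1, d2⟩ | ⟨d1, d2⟩ | ⟨ud, rd, ed, d1, d2, d3, d4, d5, d6, d7, d8⟩
        · exfalso; have := hT uc c1 c2; omega
        · exfalso; have := hT uc c1 c2; omega
        · -- JTTT
          exfalso
          have tb := hT ub b1 b2
          have tc := hT uc c1 c2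
          have td := hT ud d1 d2
          have e1 : (p : ℤ) * (ub + uc - ud) = p * ub + p * uc - p * ud := by ring
          rcases tri p (ub + uc - ud) (by omega) with t | t | t
          · omega
          · rw [t] at e1
            omega
          · omega
  · have ta := hT ua a1 a2
    rcases hb with ⟨b1, b2⟩ | ⟨b1, b2⟩ | ⟨ub, rb, eb, b1, b2, b3, b4, b5, b6, b7, b8⟩
    · exfalso; omega
    · exfalso; omega
    · rcases hc with ⟨c1, c2⟩ | ⟨c1, c2⟩ | ⟨uc, rc, ec, c1, c2, c3, c4, c5, c6, c7, c8⟩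
      · exfalso; omega
      · exfalso; omega
      · rcases hd with ⟨d1, d2⟩ | ⟨d1, d2⟩ | ⟨ud, rd, ed, d1, d2, d3, d4, d5, d6, d7, d8⟩
        · exfalso; omega
        · exfalso; omega
        · -- TTTT
          have tb := hT ub b1 b2
          have tc := hT uc c1 c2
          have td := hT ud d1 d2
          have e1 : (p : ℤ) * (ub + uc - ua - ud) = p * ub + p * uc - p * ua - p * ud := by
            ring
          rcases tri p (ub + uc - ua - ud) (by omega) with t | t | t
          · exfalso; omega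
          · rw [t] at e1
            have hr : rb + rc = ra + rd := by omega
            have hs := sidon p hp (by omega) ua ub uc ud ⟨by omega, by omega⟩
              ⟨by omega, by omega⟩ ⟨by omega, by omega⟩ ⟨by omega, by omega⟩ (by omega)
              (by rw [← a3, ← b3, ← c3, ← d3]; exact hr)
            rcases hs with hs | hs
            · have hr2 : rb = ra := by rw [a3, b3, hs]
              rw [hs] at b8
              apply small_step p a b c (by omega) (by omega) (by omega) (by omega)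
              nlinarith
            · have hr2 : rc = ra := by rw [a3, c3, hs]
              rw [hs] at c8
              apply small_step p a b c (by omega) (by omega) (by omega) (by omega)
              nlinarith
          · exfalso; omega

/-- The integer attached to `(u, e)`. -/
def pt (p : ℕ) (x : ℤ × ℤ) : ℤ := 24 * (p * x.1) + 13 * p + 3 * (x.1 ^ 2 % p) + x.2

noncomputable def setI (p : ℕ) : Finset ℤ := Finset.Icc 0 (979 * (p : ℤ) / 100)
noncomputable def setJ (p : ℕ) : Finset ℤ := Finset.Icc (98 * (p : ℤ) / 5 + 1) ((104 * (p : ℤ) + 5) / 5)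
noncomputable def setT (p : ℕ) : Finset ℤ :=
  (Finset.Icc (2 : ℤ) (p - 1) ×ˢ Finset.Icc (0 : ℤ) 1).image (pt p)
noncomputable def setA (p : ℕ) : Finset ℤ := setI p ∪ (setJ p ∪ setT p)

lemma kind_of_mem (p : ℕ) (hp : 100 ≤ p) (v : ℤ) (hv : v ∈ setA p) : Kind p v := by
  unfold setA setI setJ setT at hv
  rw [Finset.mem_union, Finset.mem_union, Finset.mem_Icc, Finset.mem_Icc, Finset.mem_image] at hv
  rcases hv with hv | hv | ⟨⟨u, e⟩, hx, rfl⟩
  · left; omega
  · right; left; omega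
  · right; right
    rw [Finset.mem_product, Finset.mem_Icc, Finset.mem_Icc] at hx
    obtain ⟨⟨h1, h2⟩, h3, h4⟩ := hx
    simp only at h1 h2 h3 h4
    have hp0 : (0 : ℤ) < p := by exact_mod_cast (by omega : 0 < p)
    refine ⟨u, u ^ 2 % p, e, h1, by omega, rfl, Int.emod_nonneg _ (by omega), ?_, h3, h4, rfl⟩
    have := Int.emod_lt_of_pos (u ^ 2) hp0
    omega

lemma bounds_of_kind (p : ℕ) (hp : 100 ≤ p) (v : ℤ) (hv : Kind p v) :
    0 ≤ v ∧ v + 1 ≤ 24 * (p : ℤ) ^ 2 := by
  have hp0 : (100 : ℤ) ≤ p := by exact_mod_cast hp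
  rcases hv with ⟨a1, a2⟩ | ⟨a1, a2⟩ | ⟨u, r, e, a1, a2, a3, a4, a5, a6, a7, a8⟩
  · constructor
    · omega
    · nlinarith
  · constructor
    · omega
    · nlinarith
  · have h1 : 2 * (p : ℤ) ≤ p * u := by nlinarith
    have h2 : (p : ℤ) * u ≤ p ^ 2 - p := by nlinarith
    constructor
    · omega
    · omega

lemma card_setT (p : ℕ) (hp : 100 ≤ p) : (setT p).card = 2 * (p - 2) := by
  have hp0 : (100 : ℤ) ≤ p := by exact_mod_cast hp
  unfold setT
  rw [Finset.card_image_of_injOn]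
  · rw [Finset.card_product, Int.card_Icc, Int.card_Icc]
    have e1 : ((p : ℤ) - 1 + 1 - 2).toNat = p - 2 := by omega
    rw [e1]
    have e2 : ((1 : ℤ) + 1 - 0).toNat = 2 := by decide
    rw [e2]
    ring
  · rintro ⟨u, e⟩ hx ⟨u', e'⟩ hy hxy
    rw [Finset.mem_coe, Finset.mem_product, Finset.mem_Icc, Finset.mem_Icc] at hx hy
    obtain ⟨⟨h1, h2⟩, h3, h4⟩ := hx
    obtain ⟨⟨g1, g2⟩, g3, g4⟩ := hy
    simp only at h1 h2 h3 h4 g1 g2 g3 g4
    unfold pt at hxy
    simp only at hxy
    have r1 := Int.emod_nonneg (u ^ 2) (show (p : ℤ) ≠ 0 by omega)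
    have r2 := Int.emod_lt_of_pos (u ^ 2) (show (0 : ℤ) < p by omega)
    have r3 := Int.emod_nonneg (u' ^ 2) (show (p : ℤ) ≠ 0 by omega)
    have r4 := Int.emod_lt_of_pos (u' ^ 2) (show (0 : ℤ) < p by omega)
    have e1 : (p : ℤ) * (u - u') = p * u - p * u' := by ring
    rcases tri p (u - u') (by omega) with t | t | t
    · exfalso
      generalize u ^ 2 % (p : ℤ) = R at *
      generalize u' ^ 2 % (p : ℤ) = R' at *
      omega
    · have hu : u = u' := by omega
      subst hu
      have : e = e' := by omega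
      rw [this]
    · exfalso
      generalize u ^ 2 % (p : ℤ) = R at *
      generalize u' ^ 2 % (p : ℤ) = R' at *
      omega

lemma disj1 (p : ℕ) (hp : 100 ≤ p) : Disjoint (setJ p) (setT p) := by
  rw [Finset.disjoint_left]
  intro v hv hw
  have hp0 : (100 : ℤ) ≤ p := by exact_mod_cast hp
  unfold setJ at hv
  unfold setT at hw
  rw [Finset.mem_Icc] at hv
  rw [Finset.mem_image] at hw
  obtain ⟨⟨u, e⟩, hx, rfl⟩ := hw
  rw [Finset.mem_product, Finset.mem_Icc, Finset.mem_Icc] at hx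
  obtain ⟨⟨h1, h2⟩, h3, h4⟩ := hx
  simp only at h1 h2 h3 h4
  unfold pt at hv
  simp only at hv
  have r1 := Int.emod_nonneg (u ^ 2) (show (p : ℤ) ≠ 0 by omega)
  have h5 : 2 * (p : ℤ) ≤ p * u := by nlinarith
  generalize u ^ 2 % (p : ℤ) = R at *
  omega

lemma disj2 (p : ℕ) (hp : 100 ≤ p) : Disjoint (setI p) (setJ p ∪ setT p) := by
  rw [Finset.disjoint_left]
  intro v hv hw
  have hp0 : (100 : ℤ) ≤ p := by exact_mod_cast hp
  unfold setI at hv
  rw [Finset.mem_Icc] at hv
  rw [Finset.mem_union] at hw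
  rcases hw with hw | hw
  · unfold setJ at hw
    rw [Finset.mem_Icc] at hw
    omega
  · unfold setT at hw
    rw [Finset.mem_image] at hw
    obtain ⟨⟨u, e⟩, hx, rfl⟩ := hw
    rw [Finset.mem_product, Finset.mem_Icc, Finset.mem_Icc] at hx
    obtain ⟨⟨h1, h2⟩, h3, h4⟩ := hx
    simp only at h1 h2 h3 h4
    unfold pt at hv
    simp only at hv
    have r1 := Int.emod_nonneg (u ^ 2) (show (p : ℤ) ≠ 0 by omega)
    have h5 : 2 * (p : ℤ) ≤ p * u := by nlinarith
    generalize u ^ 2 % (p : ℤ) = R at *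
    omega

lemma card_setA (p : ℕ) (hp : 100 ≤ p) :
    (1299 * (p : ℤ)) / 100 - 5 ≤ ((setA p).card : ℤ) := by
  have hp0 : (100 : ℤ) ≤ p := by exact_mod_cast hp
  unfold setA
  rw [Finset.card_union_of_disjoint (disj2 p hp), Finset.card_union_of_disjoint (disj1 p hp),
    card_setT p hp]
  unfold setI setJ
  rw [Int.card_Icc, Int.card_Icc]
  omega

lemma flat (p : ℕ) (hp : p.Prime) (hbig : 100 ≤ p) (x h₁ h₂ : ℤ)
    (h0 : Kind p x) (h1 : Kind p (x + h₁)) (h2 : Kind p (x + h₂)) (h3 : Kind p (x + h₁ + h₂)) :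
    |h₁| * |h₂| ≤ 24 * (p : ℤ) ^ 2 := by
  -- nonnegative case
  have key : ∀ x s t : ℤ, 0 ≤ s → 0 ≤ t → Kind p x → Kind p (x + s) → Kind p (x + t) →
      Kind p (x + s + t) → s * t ≤ 24 * (p : ℤ) ^ 2 := by
    intro x s t hs ht k0 k1 k2 k3
    rcases le_total s t with hst | hst
    · have := flat4 p hp hbig x (x + s) (x + t) (x + s + t) k0 k1 k2 k3 (by ring) (by omega)
        (by omega)
      simpa using this
    · have := flat4 p hp hbig x (x + t) (x + s) (x + s + t) k0 k2 k1 k3 (by ring) (by omega)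
        (by omega)
      rw [mul_comm]
      simpa using this
  rcases le_total 0 h₁ with a | a <;> rcases le_total 0 h₂ with b | b
  · rw [abs_of_nonneg a, abs_of_nonneg b]
    exact key x h₁ h₂ a b h0 h1 h2 h3
  · rw [abs_of_nonneg a, abs_of_nonpos b]
    have := key (x + h₂) h₁ (-h₂) a (by omega) h2 (by rwa [show x + h₂ + h₁ = x + h₁ + h₂ by ring])
      (by rwa [show x + h₂ + -h₂ = x by ring])
      (by rwa [show x + h₂ + h₁ + -h₂ = x + h₁ by ring])
    exact this
  · rw [abs_of_nonpos a, abs_of_nonneg b]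
    have := key (x + h₁) (-h₁) h₂ (by omega) b h1 (by rwa [show x + h₁ + -h₁ = x by ring])
      h3 (by rwa [show x + h₁ + -h₁ + h₂ = x + h₂ by ring])
    exact this
  · rw [abs_of_nonpos a, abs_of_nonpos b]
    have := key (x + h₁ + h₂) (-h₁) (-h₂) (by omega) (by omega) h3
      (by rwa [show x + h₁ + h₂ + -h₁ = x + h₂ by ring])
      (by rwa [show x + h₁ + h₂ + -h₂ = x + h₁ by ring])
      (by rwa [show x + h₁ + h₂ + -h₁ + -h₂ = x by ring])
    exact this

/-- For arbitrarily large `N` there is an `N`-flat subset of `[N]` with at least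
`(53/20) √N` elements. -/
theorem result (N₀ : ℕ) : ∃ N : ℕ, N₀ ≤ N ∧ ∃ A : Finset ℤ, A ⊆ Finset.Icc 1 (N : ℤ) ∧
    (∀ x h₁ h₂ : ℤ, x ∈ A → x + h₁ ∈ A → x + h₂ ∈ A → x + h₁ + h₂ ∈ A →
      |h₁| * |h₂| ≤ (N : ℤ)) ∧
    (53 / 20 : ℝ) * √(N : ℝ) ≤ (A.card : ℝ) := by
  obtain ⟨p, hp1, hp⟩ := Nat.exists_infinite_primes (N₀ + 1000)
  have hbig : 100 ≤ p := by omega
  have hp0 : (1000 : ℤ) ≤ p := by exact_mod_cast (by omega : 1000 ≤ p)
  refine ⟨24 * p ^ 2, by nlinarith, (setA p).map (addRightEmbedding 1), ?_, ?_, ?_⟩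
  · intro v hv
    rw [Finset.mem_map] at hv
    obtain ⟨w, hw, rfl⟩ := hv
    have := bounds_of_kind p hbig w (kind_of_mem p hbig w hw)
    rw [Finset.mem_Icc]
    simp only [addRightEmbedding_apply]
    push_cast
    omega
  · have hmem : ∀ y : ℤ, y ∈ (setA p).map (addRightEmbedding 1) → Kind p (y - 1) := by
      intro y hy
      rw [Finset.mem_map] at hy
      obtain ⟨w, hw, rfl⟩ := hy
      simp only [addRightEmbedding_apply]
      rw [show w + 1 - 1 = w by ring]
      exact kind_of_mem p hbig w hw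
    intro x h₁ h₂ k0 k1 k2 k3
    have := flat p hp hbig (x - 1) h₁ h₂ (hmem _ k0)
      (by have := hmem _ k1; rwa [show x + h₁ - 1 = x - 1 + h₁ by ring] at this)
      (by have := hmem _ k2; rwa [show x + h₂ - 1 = x - 1 + h₂ by ring] at this)
      (by have := hmem _ k3; rwa [show x + h₁ + h₂ - 1 = x - 1 + h₁ + h₂ by ring] at this)
    push_cast
    exact this
  · rw [Finset.card_map]
    have hc := card_setA p hbig
    have hc2 : (1299 * (p : ℝ)) / 100 - 6 ≤ ((setA p).card : ℝ) := by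
      have h1 : 1299 * (p : ℤ) ≤ 100 * (((setA p).card : ℤ) + 6) := by omega
      have h2 : 1299 * (p : ℝ) ≤ 100 * (((setA p).card : ℝ) + 6) := by exact_mod_cast h1
      linarith
    have hs : √((24 * p ^ 2 : ℕ) : ℝ) ≤ 4899 / 1000 * (p : ℝ) := by
      rw [Real.sqrt_le_left (by positivity)]
      push_cast
      nlinarith [sq_nonneg (p : ℝ)]
    have hpr : (1000 : ℝ) ≤ p := by exact_mod_cast (by omega : 1000 ≤ p)
    linarith

end Pool.Agent.Helper41.FlatSets
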